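import Mathlib

/-!
# Nested sums at roots of unity: definitions and convergence
-/

set_option autoImplicit false

namespace Pool.Agent.Run7.h317.CV

open Filter Topology Finset

/-- The truncated nested sum `∑_{M ≥ ℓ_1 > ℓ_2 > … > ℓ_n ≥ 1} ∏_j z_j ^ ℓ_j / ℓ_j ^ a_j` of the list
`(a_1, z_1), …, (a_n, z_n)`. -/
noncomputable def trunc : List (ℕ × ℂ) → ℕ → ℂ
  | [], _ => 1
  | (a, z) :: l, M => ∑ m ∈ Finset.Icc 1 M, z ^ m / (m : ℂ) ^ a * trunc l (m - 1)

/-- valid letters: positive exponents, complex numbers of absolute value one -/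
def Val (l : List (ℕ × ℂ)) : Prop := ∀ p ∈ l, 1 ≤ p.1 ∧ ‖p.2‖ = 1

theorem trunc_nil (M : ℕ) : trunc [] M = 1 := rfl

theorem trunc_cons (a : ℕ) (z : ℂ) (l : List (ℕ × ℂ)) (M : ℕ) :
    trunc ((a, z) :: l) M = ∑ m ∈ Finset.Icc 1 M, z ^ m / (m : ℂ) ^ a * trunc l (m - 1) := rfl

theorem trunc_succ (a : ℕ) (z : ℂ) (l : List (ℕ × ℂ)) (M : ℕ) :
    trunc ((a, z) :: l) (M + 1) = trunc ((a, z) :: l) M +
      z ^ (M + 1) / ((M + 1 : ℕ) : ℂ) ^ a * trunc l M := by
  rw [trunc_cons, trunc_cons, Finset.sum_Icc_succ_top (by omega)]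
  simp

theorem trunc_zero (a : ℕ) (z : ℂ) (l : List (ℕ × ℂ)) : trunc ((a, z) :: l) 0 = 0 := by
  rw [trunc_cons]; simp

theorem norm_term (a : ℕ) (ha : 1 ≤ a) (z : ℂ) (hz : ‖z‖ = 1) (m : ℕ) (hm : 1 ≤ m) :
    ‖z ^ m / (m : ℂ) ^ a‖ ≤ 1 / (m : ℝ) := by
  rw [norm_div, norm_pow, hz, one_pow, norm_pow, Complex.norm_natCast]
  have hm' : (1 : ℝ) ≤ m := by exact_mod_cast hm
  apply one_div_le_one_div_of_le (by linarith)
  calc (m : ℝ) = (m : ℝ) ^ 1 := (pow_one _).symm
    _ ≤ (m : ℝ) ^ a := pow_le_pow_right₀ hm' ha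

theorem sqrt_step (m : ℕ) : 1 / Real.sqrt (m + 1 : ℕ) ≤
    2 * (Real.sqrt ((m : ℝ) + 1) - Real.sqrt m) := by
  have h1 : 0 < Real.sqrt ((m : ℝ) + 1) := Real.sqrt_pos.2 (by positivity)
  have h2 : 0 ≤ Real.sqrt (m : ℝ) := Real.sqrt_nonneg _
  have h3 : Real.sqrt ((m : ℝ) + 1) ^ 2 = m + 1 := Real.sq_sqrt (by positivity)
  have h4 : Real.sqrt (m : ℝ) ^ 2 = m := Real.sq_sqrt (by positivity)
  have h5 : Real.sqrt (m : ℝ) ≤ Real.sqrt ((m : ℝ) + 1) := Real.sqrt_le_sqrt (by linarith)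
  push_cast
  rw [div_le_iff₀ h1]
  nlinarith [sq_nonneg (Real.sqrt ((m : ℝ) + 1) - Real.sqrt m)]

theorem norm_trunc (l : List (ℕ × ℂ)) (hl : Val l) (M : ℕ) :
    ‖trunc l M‖ ≤ 2 ^ l.length * Real.sqrt (M + 1) := by
  induction l generalizing M with
  | nil =>
    rw [trunc_nil]
    simp only [norm_one, List.length_nil, pow_zero, one_mul]
    rw [Real.one_le_sqrt]
    linarith [(Nat.cast_nonneg M : (0 : ℝ) ≤ M)]
  | cons p l ih =>
    obtain ⟨a, z⟩ := p
    have hl' : Val l := fun p hp => hl p (List.mem_cons_of_mem _ hp)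
    obtain ⟨ha, hz⟩ := hl (a, z) List.mem_cons_self
    have key : ∀ M : ℕ, ‖trunc ((a, z) :: l) M‖ ≤ 2 ^ l.length * (2 * Real.sqrt M) := by
      intro M
      induction M with
      | zero => rw [trunc_zero]; simp
      | succ M ihM =>
        rw [trunc_succ]
        have h1 : ‖z ^ (M + 1) / ((M + 1 : ℕ) : ℂ) ^ a * trunc l M‖ ≤
            1 / ((M + 1 : ℕ) : ℝ) * (2 ^ l.length * Real.sqrt (M + 1)) := by
          rw [norm_mul]
          exact mul_le_mul (norm_term a ha z hz (M + 1) (by omega)) (ih hl' M) (norm_nonneg _)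
            (by positivity)
        have h2 : 1 / ((M + 1 : ℕ) : ℝ) * (2 ^ l.length * Real.sqrt (M + 1)) =
            2 ^ l.length * (1 / Real.sqrt (M + 1 : ℕ)) := by
          have h3 : 0 < Real.sqrt ((M : ℝ) + 1) := Real.sqrt_pos.2 (by positivity)
          have h4 : Real.sqrt ((M : ℝ) + 1) ^ 2 = M + 1 := Real.sq_sqrt (by positivity)
          push_cast
          field_simp
          rw [h4]
        rw [h2] at h1
        have h5 := mul_le_mul_of_nonneg_left (sqrt_step M) (by positivity : (0 : ℝ) ≤ 2 ^ l.length)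
        calc _ ≤ ‖trunc ((a, z) :: l) M‖ + ‖z ^ (M + 1) / ((M + 1 : ℕ) : ℂ) ^ a * trunc l M‖ :=
              norm_add_le _ _
          _ ≤ 2 ^ l.length * (2 * Real.sqrt M) + 2 ^ l.length * (1 / Real.sqrt (M + 1 : ℕ)) :=
              add_le_add ihM h1
          _ ≤ _ := by push_cast at h5 ⊢; linarith
    refine (key M).trans ?_
    rw [List.length_cons, pow_succ]
    have : Real.sqrt (M : ℝ) ≤ Real.sqrt ((M : ℝ) + 1) := Real.sqrt_le_sqrt (by linarith)
    nlinarith [pow_pos (two_pos (α := ℝ)) l.length]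

theorem norm_trunc' (l : List (ℕ × ℂ)) (hl : Val l) (m : ℕ) (hm : 1 ≤ m) :
    ‖trunc l (m - 1)‖ ≤ 2 ^ l.length * Real.sqrt m := by
  have := norm_trunc l hl (m - 1)
  have h2 : ((m - 1 : ℕ) : ℝ) + 1 = m := by
    have : ((m - 1 + 1 : ℕ) : ℝ) = m := by congr 1; exact_mod_cast Nat.sub_add_cancel hm
    rw [← this]; push_cast; ring
  rwa [h2] at this

theorem norm_diff (l : List (ℕ × ℂ)) (hl : Val l) (M : ℕ) :
    ‖trunc l (M + 1) - trunc l M‖ ≤ 2 ^ l.length * (1 / Real.sqrt (M + 1)) := by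
  rcases l with _ | ⟨⟨a, z⟩, l⟩
  · rw [trunc_nil, trunc_nil]
    simp
  · have hl' : Val l := fun p hp => hl p (List.mem_cons_of_mem _ hp)
    obtain ⟨ha, hz⟩ := hl (a, z) List.mem_cons_self
    rw [trunc_succ, add_sub_cancel_left, norm_mul]
    have h1 := mul_le_mul (norm_term a ha z hz (M + 1) (by omega)) (norm_trunc l hl' M)
      (norm_nonneg _) (by positivity)
    refine h1.trans ?_
    have h3 : 0 < Real.sqrt ((M : ℝ) + 1) := Real.sqrt_pos.2 (by positivity)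
    have h4 : Real.sqrt ((M : ℝ) + 1) ^ 2 = M + 1 := Real.sq_sqrt (by positivity)
    have h2 : 1 / ((M + 1 : ℕ) : ℝ) * (2 ^ l.length * Real.sqrt (M + 1)) =
        2 ^ l.length * (1 / Real.sqrt (M + 1)) := by
      push_cast
      field_simp
      rw [h4]
    rw [h2, List.length_cons, pow_succ]
    have : 0 ≤ 1 / Real.sqrt ((M : ℝ) + 1) := by positivity
    nlinarith [pow_pos (two_pos (α := ℝ)) l.length]

/-- summation by parts -/
theorem parts (z : ℂ) (c : ℕ → ℂ) (M : ℕ) :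
    (1 - z) * ∑ m ∈ Finset.range M, z ^ (m + 1) * c m =
      z * c 0 - z ^ (M + 1) * c M + ∑ m ∈ Finset.range M, z ^ (m + 2) * (c (m + 1) - c m) := by
  induction M with
  | zero => simp
  | succ M ih =>
    rw [Finset.sum_range_succ, Finset.sum_range_succ, mul_add, ih]
    ring

theorem tendsto_parts (z : ℂ) (hz : ‖z‖ = 1) (hz1 : z ≠ 1) (c : ℕ → ℂ)
    (hc : Tendsto c atTop (𝓝 0)) (hs : Summable fun m => ‖c (m + 1) - c m‖) :
    ∃ x, Tendsto (fun M => ∑ m ∈ Finset.range M, z ^ (m + 1) * c m) atTop (𝓝 x) := by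
  have h1 : Summable fun m => z ^ (m + 2) * (c (m + 1) - c m) := by
    apply Summable.of_norm
    simpa [norm_mul, norm_pow, hz] using hs
  have h2 := h1.hasSum.tendsto_sum_nat
  have h3 : Tendsto (fun M => z ^ (M + 1) * c M) atTop (𝓝 0) := by
    rw [tendsto_zero_iff_norm_tendsto_zero] at hc ⊢
    simpa [norm_mul, norm_pow, hz] using hc
  have h4 : Tendsto (fun M => (1 - z)⁻¹ * (z * c 0 - z ^ (M + 1) * c M +
      ∑ m ∈ Finset.range M, z ^ (m + 2) * (c (m + 1) - c m))) atTop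
      (𝓝 ((1 - z)⁻¹ * (z * c 0 - 0 + ∑' m, z ^ (m + 2) * (c (m + 1) - c m)))) :=
    ((tendsto_const_nhds.sub h3).add h2).const_mul _
  refine ⟨_, h4.congr fun M => ?_⟩
  rw [← parts, inv_mul_cancel_left₀ (sub_ne_zero.2 hz1.symm)]

theorem inv_sqrt_summable : Summable fun m : ℕ => 1 / (((m : ℝ) + 1) * Real.sqrt (m + 1)) := by
  have h1 : Summable fun n : ℕ => 1 / (n : ℝ) ^ ((3 : ℝ) / 2) :=
    Real.summable_one_div_nat_rpow.2 (by norm_num)
  have h2 := (summable_nat_add_iff 1).2 h1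
  refine h2.congr fun m => ?_
  congr 1
  push_cast
  have h3 : (0 : ℝ) < (m : ℝ) + 1 := by positivity
  rw [Real.sqrt_eq_rpow, show ((3 : ℝ) / 2) = 1 + 1 / 2 by norm_num, Real.rpow_add h3, Real.rpow_one]

/-- **Convergence.** -/
theorem exists_lim (a : ℕ) (z : ℂ) (l : List (ℕ × ℂ)) (hl : Val ((a, z) :: l))
    (h : (a, z) ≠ (1, 1)) : ∃ x, Tendsto (trunc ((a, z) :: l)) atTop (𝓝 x) := by
  have hl' : Val l := fun p hp => hl p (List.mem_cons_of_mem _ hp)
  obtain ⟨ha, hz⟩ := hl (a, z) List.mem_cons_self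
  have e : ∀ M, trunc ((a, z) :: l) M =
      ∑ m ∈ Finset.range M, z ^ (m + 1) * (1 / ((m + 1 : ℕ) : ℂ) ^ a * trunc l m) := by
    intro M
    induction M with
    | zero => rw [trunc_zero]; simp
    | succ M ih => rw [trunc_succ, ih, Finset.sum_range_succ]; ring
  rcases Nat.lt_or_ge a 2 with ha2 | ha2
  · have ha1 : a = 1 := by omega
    subst ha1
    have hz1 : z ≠ 1 := fun h' => h (by rw [h'])
    obtain ⟨x, hx⟩ := tendsto_parts z hz hz1 (fun m => 1 / ((m + 1 : ℕ) : ℂ) ^ 1 * trunc l m) (by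
      rw [tendsto_zero_iff_norm_tendsto_zero]
      have hb : ∀ m : ℕ, ‖1 / ((m + 1 : ℕ) : ℂ) ^ 1 * trunc l m‖ ≤
          2 ^ l.length * (1 / Real.sqrt ((m : ℝ) + 1)) := by
        intro m
        rw [norm_mul, norm_div, norm_one, pow_one, Complex.norm_natCast]
        have h3 : 0 < Real.sqrt ((m : ℝ) + 1) := Real.sqrt_pos.2 (by positivity)
        have h4 : Real.sqrt ((m : ℝ) + 1) ^ 2 = m + 1 := Real.sq_sqrt (by positivity)
        calc 1 / ((m + 1 : ℕ) : ℝ) * ‖trunc l m‖ ≤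
            1 / ((m + 1 : ℕ) : ℝ) * (2 ^ l.length * Real.sqrt (m + 1)) :=
              mul_le_mul_of_nonneg_left (norm_trunc l hl' m) (by positivity)
          _ = _ := by push_cast; field_simp; rw [h4]
      have hlim : Tendsto (fun m : ℕ => (2 : ℝ) ^ l.length * (1 / Real.sqrt ((m : ℝ) + 1))) atTop
          (𝓝 (2 ^ l.length * 0)) := by
        apply Tendsto.const_mul
        have h5 : Tendsto (fun m : ℕ => Real.sqrt ((m : ℝ) + 1)) atTop atTop :=
          Real.tendsto_sqrt_atTop.comp (tendsto_atTop_add_const_right _ _ tendsto_natCast_atTop_atTop)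
        refine h5.inv_tendsto_atTop.congr fun m => ?_
        rw [Pi.inv_apply, one_div]
      rw [mul_zero] at hlim
      exact squeeze_zero (fun _ => norm_nonneg _) hb hlim) (by
      refine Summable.of_nonneg_of_le (fun _ => norm_nonneg _) (fun m => ?_)
        (inv_sqrt_summable.mul_left (2 * 2 ^ l.length))
      simp only [pow_one]
      have h0 : 1 / ((m + 1 + 1 : ℕ) : ℂ) * trunc l (m + 1) - 1 / ((m + 1 : ℕ) : ℂ) * trunc l m =
          1 / ((m + 1 + 1 : ℕ) : ℂ) * (trunc l (m + 1) - trunc l m) -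
          1 / (((m + 1 : ℕ) : ℂ) * ((m + 1 + 1 : ℕ) : ℂ)) * trunc l m := by
        have h6 : ((m + 1 : ℕ) : ℂ) ≠ 0 := by exact_mod_cast Nat.succ_ne_zero m
        have h7 : ((m + 1 + 1 : ℕ) : ℂ) ≠ 0 := by exact_mod_cast Nat.succ_ne_zero (m + 1)
        have h8 : ((m + 1 + 1 : ℕ) : ℂ) = ((m + 1 : ℕ) : ℂ) + 1 := by push_cast; ring
        rw [h8] at h7 ⊢
        field_simp
        ring
      rw [h0]
      have h3 : 0 < Real.sqrt ((m : ℝ) + 1) := Real.sqrt_pos.2 (by positivity)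
      have h4 : Real.sqrt ((m : ℝ) + 1) ^ 2 = m + 1 := Real.sq_sqrt (by positivity)
      have hm0 : (0 : ℝ) < (m : ℝ) + 1 := by positivity
      have hA : ‖1 / ((m + 1 + 1 : ℕ) : ℂ) * (trunc l (m + 1) - trunc l m)‖ ≤
          2 ^ l.length * (1 / (((m : ℝ) + 1) * Real.sqrt (m + 1))) := by
        rw [norm_mul, norm_div, norm_one, Complex.norm_natCast]
        have h9 : 1 / ((m + 1 + 1 : ℕ) : ℝ) ≤ 1 / ((m : ℝ) + 1) := by
          apply one_div_le_one_div_of_le hm0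
          push_cast; linarith
        calc _ ≤ 1 / ((m : ℝ) + 1) * (2 ^ l.length * (1 / Real.sqrt (m + 1))) :=
              mul_le_mul h9 (norm_diff l hl' m) (norm_nonneg _) (by positivity)
          _ = _ := by field_simp
      have hB : ‖1 / (((m + 1 : ℕ) : ℂ) * ((m + 1 + 1 : ℕ) : ℂ)) * trunc l m‖ ≤
          2 ^ l.length * (1 / (((m : ℝ) + 1) * Real.sqrt (m + 1))) := by
        rw [norm_mul, norm_div, norm_one, norm_mul, Complex.norm_natCast, Complex.norm_natCast]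
        have h9 : 1 / (((m + 1 : ℕ) : ℝ) * ((m + 1 + 1 : ℕ) : ℝ)) ≤
            1 / (((m : ℝ) + 1) * ((m : ℝ) + 1)) := by
          apply one_div_le_one_div_of_le (by positivity)
          push_cast; nlinarith
        calc _ ≤ 1 / (((m : ℝ) + 1) * ((m : ℝ) + 1)) * (2 ^ l.length * Real.sqrt (m + 1)) :=
              mul_le_mul h9 (norm_trunc l hl' m) (norm_nonneg _) (by positivity)
          _ = _ := by field_simp; rw [h4]
      calc _ ≤ _ := norm_sub_le _ _
        _ ≤ _ := add_le_add hA hB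
        _ = _ := by ring)
    exact ⟨x, hx.congr fun M => (e M).symm⟩
  · have hs : Summable fun m : ℕ => z ^ (m + 1) * (1 / ((m + 1 : ℕ) : ℂ) ^ a * trunc l m) := by
      apply Summable.of_norm
      refine Summable.of_nonneg_of_le (fun _ => norm_nonneg _) (fun m => ?_)
        (inv_sqrt_summable.mul_left (2 ^ l.length))
      rw [norm_mul, norm_pow, hz, one_pow, one_mul, norm_mul, norm_div, norm_one, norm_pow,
        Complex.norm_natCast]
      have h3 : 0 < Real.sqrt ((m : ℝ) + 1) := Real.sqrt_pos.2 (by positivity)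
      have h4 : Real.sqrt ((m : ℝ) + 1) ^ 2 = m + 1 := Real.sq_sqrt (by positivity)
      have h9 : 1 / ((m + 1 : ℕ) : ℝ) ^ a ≤ 1 / ((m : ℝ) + 1) ^ 2 := by
        apply one_div_le_one_div_of_le (by positivity)
        push_cast
        exact pow_le_pow_right₀ (by linarith [(Nat.cast_nonneg m : (0 : ℝ) ≤ m)]) ha2
      calc _ ≤ 1 / ((m : ℝ) + 1) ^ 2 * (2 ^ l.length * Real.sqrt (m + 1)) :=
            mul_le_mul h9 (norm_trunc l hl' m) (norm_nonneg _) (by positivity)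
        _ = _ := by field_simp; rw [h4]
    exact ⟨_, hs.hasSum.tendsto_sum_nat.congr fun M => (e M).symm⟩

end Pool.Agent.Run7.h317.CV
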