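import Pool.Agent.Run7.h317.CV.A

/-!
# Quasi-shuffle product of nested sums at roots of unity
-/

set_option autoImplicit false

namespace Pool.Agent.Run7.h317.CV

open Filter Topology Finset

/-- positive exponents and `N`-th roots of unity -/
def Lev (N : ℕ) (l : List (ℕ × ℂ)) : Prop := ∀ p ∈ l, 1 ≤ p.1 ∧ p.2 ^ N = 1

/-- the weight -/
def wt (l : List (ℕ × ℂ)) : ℕ := (l.map Prod.fst).sum

theorem wt_cons (a : ℕ) (z : ℂ) (l : List (ℕ × ℂ)) : wt ((a, z) :: l) = a + wt l := by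
  simp [wt]

theorem Lev.tail {N : ℕ} {p : ℕ × ℂ} {l : List (ℕ × ℂ)} (h : Lev N (p :: l)) : Lev N l :=
  fun q hq => h q (List.mem_cons_of_mem _ hq)

theorem Lev.cons {N : ℕ} {a : ℕ} {z : ℂ} {l : List (ℕ × ℂ)} (ha : 1 ≤ a) (hz : z ^ N = 1)
    (h : Lev N l) : Lev N ((a, z) :: l) := by
  intro q hq
  rcases List.mem_cons.1 hq with rfl | hq
  · exact ⟨ha, hz⟩
  · exact h q hq

theorem Lev.val {N : ℕ} (hN : N ≠ 0) {l : List (ℕ × ℂ)} (h : Lev N l) : Val l := fun p hp =>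
  ⟨(h p hp).1, Complex.norm_eq_one_of_pow_eq_one (h p hp).2 hN⟩

/-- the operator of adding a letter -/
noncomputable def Op (a : ℕ) (z : ℂ) : (ℕ → ℂ) →ₗ[ℚ] (ℕ → ℂ) where
  toFun f M := ∑ m ∈ Finset.Icc 1 M, z ^ m / (m : ℂ) ^ a * f (m - 1)
  map_add' f g := by
    funext M
    simp only [Pi.add_apply, mul_add, Finset.sum_add_distrib]
  map_smul' c f := by
    funext M
    simp only [Pi.smul_apply, RingHom.id_apply, Finset.smul_sum, mul_smul_comm]

theorem Op_apply (a : ℕ) (z : ℂ) (f : ℕ → ℂ) (M : ℕ) :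
    Op a z f M = ∑ m ∈ Finset.Icc 1 M, z ^ m / (m : ℂ) ^ a * f (m - 1) := rfl

theorem Op_zero (a : ℕ) (z : ℂ) (f : ℕ → ℂ) : Op a z f 0 = 0 := by
  rw [Op_apply]; simp

theorem Op_succ (a : ℕ) (z : ℂ) (f : ℕ → ℂ) (M : ℕ) :
    Op a z f (M + 1) = Op a z f M + z ^ (M + 1) / ((M + 1 : ℕ) : ℂ) ^ a * f M := by
  rw [Op_apply, Op_apply, Finset.sum_Icc_succ_top (by omega)]
  simp

theorem Op_trunc (a : ℕ) (z : ℂ) (l : List (ℕ × ℂ)) : Op a z (trunc l) = trunc ((a, z) :: l) := rfl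

/-- the quasi-shuffle identity -/
theorem mul_trunc (a b : ℕ) (y z : ℂ) (s t : List (ℕ × ℂ)) :
    trunc ((a, y) :: s) * trunc ((b, z) :: t) =
      Op a y (trunc s * trunc ((b, z) :: t)) + Op b z (trunc ((a, y) :: s) * trunc t) +
        Op (a + b) (y * z) (trunc s * trunc t) := by
  funext M
  induction M with
  | zero => simp [trunc_zero, Op_zero]
  | succ M ih =>
    simp only [Pi.mul_apply, Pi.add_apply] at ih ⊢
    rw [trunc_succ, trunc_succ, Op_succ, Op_succ, Op_succ]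
    simp only [Pi.mul_apply]
    rw [mul_pow, pow_add ((M + 1 : ℕ) : ℂ) a b]
    have h0 : ((M + 1 : ℕ) : ℂ) ≠ 0 := by exact_mod_cast Nat.succ_ne_zero M
    have e : y ^ (M + 1) * z ^ (M + 1) / (((M + 1 : ℕ) : ℂ) ^ a * ((M + 1 : ℕ) : ℂ) ^ b) =
        y ^ (M + 1) / ((M + 1 : ℕ) : ℂ) ^ a * (z ^ (M + 1) / ((M + 1 : ℕ) : ℂ) ^ b) := by
      field_simp
    rw [e]
    linear_combination ih

/-- spans of the truncated sums -/
noncomputable def FF (N w : ℕ) : Submodule ℚ (ℕ → ℂ) :=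
  Submodule.span ℚ {f | ∃ l, Lev N l ∧ wt l = w ∧ f = trunc l}

/-- spans of the truncated sums which converge -/
noncomputable def AA (N w : ℕ) : Submodule ℚ (ℕ → ℂ) :=
  Submodule.span ℚ {f | ∃ a z l, Lev N ((a, z) :: l) ∧ (a, z) ≠ ((1, 1) : ℕ × ℂ) ∧
    wt ((a, z) :: l) = w ∧ f = trunc ((a, z) :: l)}

theorem trunc_mem_FF {N : ℕ} {l : List (ℕ × ℂ)} (hl : Lev N l) : trunc l ∈ FF N (wt l) :=
  Submodule.subset_span ⟨l, hl, rfl, rfl⟩

theorem Op_FF {N w a : ℕ} {z : ℂ} (ha : 1 ≤ a) (hz : z ^ N = 1) {f : ℕ → ℂ} (hf : f ∈ FF N w) :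
    Op a z f ∈ FF N (a + w) := by
  induction hf using Submodule.span_induction with
  | mem f hf =>
    obtain ⟨l, hl, hw, rfl⟩ := hf
    rw [Op_trunc, ← hw, ← wt_cons a z]
    exact trunc_mem_FF (hl.cons ha hz)
  | zero => rw [map_zero]; exact zero_mem _
  | add f g _ _ h1 h2 => rw [map_add]; exact add_mem h1 h2
  | smul c f _ h => rw [map_smul]; exact Submodule.smul_mem _ _ h

theorem Op_AA {N w a : ℕ} {z : ℂ} (ha : 1 ≤ a) (hz : z ^ N = 1) (h1 : (a, z) ≠ ((1, 1) : ℕ × ℂ))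
    {f : ℕ → ℂ} (hf : f ∈ FF N w) : Op a z f ∈ AA N (a + w) := by
  induction hf using Submodule.span_induction with
  | mem f hf =>
    obtain ⟨l, hl, hw, rfl⟩ := hf
    exact Submodule.subset_span ⟨a, z, l, hl.cons ha hz, h1, by rw [wt_cons, hw], rfl⟩
  | zero => rw [map_zero]; exact zero_mem _
  | add f g _ _ h1 h2 => rw [map_add]; exact add_mem h1 h2
  | smul c f _ h => rw [map_smul]; exact Submodule.smul_mem _ _ h

theorem mul_FF {N : ℕ} (n : ℕ) : ∀ l₁ l₂ : List (ℕ × ℂ), l₁.length + l₂.length ≤ n → Lev N l₁ →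
    Lev N l₂ → trunc l₁ * trunc l₂ ∈ FF N (wt l₁ + wt l₂) := by
  induction n with
  | zero =>
    intro l₁ l₂ h h1 h2
    have e1 : l₁ = [] := List.length_eq_zero_iff.1 (by omega)
    have e2 : l₂ = [] := List.length_eq_zero_iff.1 (by omega)
    subst e1; subst e2
    have : trunc [] * trunc [] = trunc [] := by funext M; simp [trunc_nil]
    rw [this]
    exact trunc_mem_FF h1
  | succ n ih =>
    intro l₁ l₂ h h1 h2
    rcases l₁ with _ | ⟨⟨a, y⟩, s⟩
    · have : trunc [] * trunc l₂ = trunc l₂ := by funext M; simp [trunc_nil]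
      rw [this]
      have : wt [] + wt l₂ = wt l₂ := by simp [wt]
      rw [this]
      exact trunc_mem_FF h2
    rcases l₂ with _ | ⟨⟨b, z⟩, t⟩
    · have : trunc ((a, y) :: s) * trunc [] = trunc ((a, y) :: s) := by funext M; simp [trunc_nil]
      rw [this]
      have : wt ((a, y) :: s) + wt [] = wt ((a, y) :: s) := by simp [wt]
      rw [this]
      exact trunc_mem_FF h1
    simp only [List.length_cons] at h
    obtain ⟨ha, hy⟩ := h1 (a, y) List.mem_cons_self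
    obtain ⟨hb, hz⟩ := h2 (b, z) List.mem_cons_self
    rw [mul_trunc]
    refine add_mem (add_mem ?_ ?_) ?_
    · have := Op_FF ha hy (ih s ((b, z) :: t) (by simp only [List.length_cons]; omega) h1.tail h2)
      have e : a + (wt s + wt ((b, z) :: t)) = wt ((a, y) :: s) + wt ((b, z) :: t) := by
        rw [wt_cons a]; ring
      rwa [e] at this
    · have := Op_FF hb hz (ih ((a, y) :: s) t (by simp only [List.length_cons]; omega) h1 h2.tail)
      have e : b + (wt ((a, y) :: s) + wt t) = wt ((a, y) :: s) + wt ((b, z) :: t) := by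
        rw [wt_cons b]; ring
      rwa [e] at this
    · have := Op_FF (a := a + b) (z := y * z) (by omega) (by rw [mul_pow, hy, hz, one_mul])
        (ih s t (by omega) h1.tail h2.tail)
      have e : a + b + (wt s + wt t) = wt ((a, y) :: s) + wt ((b, z) :: t) := by
        rw [wt_cons a, wt_cons b]; ring
      rwa [e] at this

theorem mul_AA {N a b : ℕ} {y z : ℂ} {s t : List (ℕ × ℂ)} (h1 : Lev N ((a, y) :: s))
    (h2 : Lev N ((b, z) :: t)) (h3 : (a, y) ≠ ((1, 1) : ℕ × ℂ)) (h4 : (b, z) ≠ ((1, 1) : ℕ × ℂ)) :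
    trunc ((a, y) :: s) * trunc ((b, z) :: t) ∈ AA N (wt ((a, y) :: s) + wt ((b, z) :: t)) := by
  obtain ⟨ha, hy⟩ := h1 (a, y) List.mem_cons_self
  obtain ⟨hb, hz⟩ := h2 (b, z) List.mem_cons_self
  rw [mul_trunc]
  refine add_mem (add_mem ?_ ?_) ?_
  · have := Op_AA ha hy h3 (mul_FF _ s ((b, z) :: t) le_rfl h1.tail h2)
    have e : a + (wt s + wt ((b, z) :: t)) = wt ((a, y) :: s) + wt ((b, z) :: t) := by
      rw [wt_cons a]; ring
    rwa [e] at this
  · have := Op_AA hb hz h4 (mul_FF _ ((a, y) :: s) t le_rfl h1 h2.tail)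
    have e : b + (wt ((a, y) :: s) + wt t) = wt ((a, y) :: s) + wt ((b, z) :: t) := by
      rw [wt_cons b]; ring
    rwa [e] at this
  · have := Op_AA (a := a + b) (z := y * z) (by omega) (by rw [mul_pow, hy, hz, one_mul])
      (by
        intro h
        have := congrArg Prod.fst h
        simp only at this
        omega)
      (mul_FF _ s t le_rfl h1.tail h2.tail)
    have e : a + b + (wt s + wt t) = wt ((a, y) :: s) + wt ((b, z) :: t) := by
      rw [wt_cons a, wt_cons b]; ring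
    rwa [e] at this

/-- The space `𝔷_w(N)` of the values of weight `w` at `N`-th roots of unity. -/
noncomputable def ZZ (N w : ℕ) : Submodule ℚ ℂ :=
  Submodule.span ℚ {x | ∃ a z l, Lev N ((a, z) :: l) ∧ (a, z) ≠ ((1, 1) : ℕ × ℂ) ∧
    wt ((a, z) :: l) = w ∧ Tendsto (trunc ((a, z) :: l)) atTop (𝓝 x)}

theorem lim_AA {N w : ℕ} (hN : N ≠ 0) {f : ℕ → ℂ} (hf : f ∈ AA N w) :
    ∃ x ∈ ZZ N w, Tendsto f atTop (𝓝 x) := by
  induction hf using Submodule.span_induction with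
  | mem f hf =>
    obtain ⟨a, z, l, hl, h1, hw, rfl⟩ := hf
    obtain ⟨x, hx⟩ := exists_lim a z l (hl.val hN) h1
    exact ⟨x, Submodule.subset_span ⟨a, z, l, hl, h1, hw, hx⟩, hx⟩
  | zero => exact ⟨0, zero_mem _, tendsto_const_nhds⟩
  | add f g _ _ h1 h2 =>
    obtain ⟨x, hx, hx'⟩ := h1
    obtain ⟨y, hy, hy'⟩ := h2
    exact ⟨x + y, add_mem hx hy, hx'.add hy'⟩
  | smul c f _ h =>
    obtain ⟨x, hx, hx'⟩ := h
    exact ⟨c • x, Submodule.smul_mem _ _ hx, hx'.const_smul c⟩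

theorem mul_gen {N w₁ w₂ : ℕ} (hN : N ≠ 0) {x y : ℂ}
    (hx : x ∈ {x | ∃ a z l, Lev N ((a, z) :: l) ∧ (a, z) ≠ ((1, 1) : ℕ × ℂ) ∧
      wt ((a, z) :: l) = w₁ ∧ Tendsto (trunc ((a, z) :: l)) atTop (𝓝 x)})
    (hy : y ∈ {x | ∃ a z l, Lev N ((a, z) :: l) ∧ (a, z) ≠ ((1, 1) : ℕ × ℂ) ∧
      wt ((a, z) :: l) = w₂ ∧ Tendsto (trunc ((a, z) :: l)) atTop (𝓝 x)}) :
    x * y ∈ ZZ N (w₁ + w₂) := by
  obtain ⟨a, z, l, hl, h1, hw, hx⟩ := hx
  obtain ⟨b, z', l', hl', h1', hw', hy⟩ := hy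
  have h := mul_AA hl hl' h1 h1'
  rw [hw, hw'] at h
  obtain ⟨u, hu, hu'⟩ := lim_AA hN h
  have := tendsto_nhds_unique hu' (hx.mul hy)
  rwa [← this]

/-- the product -/
theorem mul_ZZ {N w₁ w₂ : ℕ} (hN : N ≠ 0) {x y : ℂ} (hx : x ∈ ZZ N w₁) (hy : y ∈ ZZ N w₂) :
    x * y ∈ ZZ N (w₁ + w₂) := by
  induction hx using Submodule.span_induction with
  | mem x hx =>
    induction hy using Submodule.span_induction with
    | mem y hy => exact mul_gen hN hx hy
    | zero => rw [mul_zero]; exact zero_mem _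
    | add y z _ _ h1 h2 => rw [mul_add]; exact add_mem h1 h2
    | smul c y _ h => rw [mul_smul_comm]; exact Submodule.smul_mem _ _ h
  | zero => rw [zero_mul]; exact zero_mem _
  | add x z _ _ h1 h2 => rw [add_mul]; exact add_mem h1 h2
  | smul c x _ h => rw [smul_mul_assoc]; exact Submodule.smul_mem _ _ h

end Pool.Agent.Run7.h317.CV
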