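import Pool.Agent.Run7.h317.CV.A

/-!
# Shuffle product of the multiple polylogarithms in one variable, and values at a point of the circle
-/

set_option autoImplicit false

namespace Pool.Agent.Run7.h317.CV

open Filter Topology Finset PowerSeries

/-- coefficients of the multiple polylogarithm `Li_l` -/
noncomputable def co : List ℕ → ℕ → ℚ
  | [], m => if m = 0 then 1 else 0
  | a :: l, m => (∑ j ∈ Finset.range m, co l j) / (m : ℚ) ^ a

/-- the multiple polylogarithm as a power series -/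
noncomputable def LL (l : List ℕ) : ℚ⟦X⟧ := PowerSeries.mk (co l)

/-- division of the coefficients by the exponents -/
noncomputable def In : ℚ⟦X⟧ →ₗ[ℚ] ℚ⟦X⟧ where
  toFun f := PowerSeries.mk fun n => coeff n f / n
  map_add' f g := by ext n; simp [add_div]
  map_smul' c f := by ext n; simp [mul_div_assoc]

/-- multiplication by `X / (1 - X)` -/
noncomputable def Sh : ℚ⟦X⟧ →ₗ[ℚ] ℚ⟦X⟧ := LinearMap.mulLeft ℚ (X * PowerSeries.mk 1)

theorem coeff_In (f : ℚ⟦X⟧) (n : ℕ) : coeff n (In f) = coeff n f / n := by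
  simp [In]

theorem coeff_Sh (f : ℚ⟦X⟧) (n : ℕ) : coeff n (Sh f) = ∑ j ∈ Finset.range n, coeff j f := by
  rw [Sh, LinearMap.mulLeft_apply, mul_assoc]
  rcases n with _ | n
  · simp
  · rw [coeff_succ_X_mul, coeff_mul, Finset.Nat.sum_antidiagonal_eq_sum_range_succ_mk]
    simp only [coeff_mk, Pi.one_apply, one_mul]
    exact Finset.sum_range_reflect (fun j => coeff j f) (n + 1)

theorem Sh_mul (f g : ℚ⟦X⟧) : Sh f * g = Sh (f * g) := by
  rw [Sh, LinearMap.mulLeft_apply, LinearMap.mulLeft_apply, mul_assoc]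

theorem coeff_LL (l : List ℕ) (n : ℕ) : coeff n (LL l) = co l n := by simp [LL]

theorem LL_nil : LL [] = 1 := by
  ext n
  rw [coeff_LL, coeff_one]
  rfl

theorem LL_one (l : List ℕ) : LL (1 :: l) = In (Sh (LL l)) := by
  ext n
  rw [coeff_LL, coeff_In, coeff_Sh]
  simp only [coeff_LL, co, pow_one]

theorem LL_succ (a : ℕ) (l : List ℕ) : LL ((a + 1) :: l) = In (LL (a :: l)) := by
  ext n
  rw [coeff_LL, coeff_In, coeff_LL, co, co, pow_succ, div_div]

theorem coeff_zero_LL (a : ℕ) (l : List ℕ) : coeff 0 (LL (a :: l)) = 0 := by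
  rw [coeff_LL, co]; simp

theorem coeff_zero_Sh (f : ℚ⟦X⟧) : coeff 0 (Sh f) = 0 := by rw [coeff_Sh]; simp

/-- `X d/dX` -/
noncomputable def th (f : ℚ⟦X⟧) : ℚ⟦X⟧ := X * derivative ℚ f

theorem coeff_th (f : ℚ⟦X⟧) (n : ℕ) : coeff n (th f) = n * coeff n f := by
  rw [th]
  rcases n with _ | n
  · simp
  · rw [coeff_succ_X_mul, coeff_derivative]
    push_cast
    ring

theorem th_mul (f g : ℚ⟦X⟧) : th (f * g) = th f * g + f * th g := by
  rw [th, th, th, Derivation.leibniz]
  simp only [smul_eq_mul]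
  ring

theorem th_In (f : ℚ⟦X⟧) (h : coeff 0 f = 0) : th (In f) = f := by
  ext n
  rw [coeff_th, coeff_In]
  rcases n with _ | n
  · simp [h]
  · have : ((n + 1 : ℕ) : ℚ) ≠ 0 := by exact_mod_cast Nat.succ_ne_zero n
    field_simp

theorem In_th (f : ℚ⟦X⟧) (h : coeff 0 f = 0) : In (th f) = f := by
  ext n
  rw [coeff_In, coeff_th]
  rcases n with _ | n
  · simp [h]
  · have : ((n + 1 : ℕ) : ℚ) ≠ 0 := by exact_mod_cast Nat.succ_ne_zero n
    field_simp

/-- integration by parts -/
theorem rota (F G : ℚ⟦X⟧) (hF : coeff 0 F = 0) (hG : coeff 0 G = 0) :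
    In F * In G = In (F * In G) + In (In F * G) := by
  rw [← map_add]
  conv_lhs => rw [← In_th (In F * In G) (by
    have h0 : coeff 0 (In F) = 0 := by rw [coeff_In, hF, zero_div]
    rw [coeff_zero_eq_constantCoeff_apply] at h0
    rw [coeff_zero_eq_constantCoeff_apply, map_mul, h0, zero_mul])]
  rw [th_mul, th_In F hF, th_In G hG]

/-- positive entries -/
def Pos (l : List ℕ) : Prop := ∀ k ∈ l, 1 ≤ k

theorem Pos.tail {a : ℕ} {l : List ℕ} (h : Pos (a :: l)) : Pos l :=
  fun k hk => h k (List.mem_cons_of_mem _ hk)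

theorem Pos.cons {a : ℕ} {l : List ℕ} (ha : 1 ≤ a) (h : Pos l) : Pos (a :: l) := by
  intro k hk
  rcases List.mem_cons.1 hk with rfl | hk
  · exact ha
  · exact h k hk

/-- the span of the polylogarithms of weight `w` -/
noncomputable def GG (w : ℕ) : Submodule ℚ ℚ⟦X⟧ :=
  Submodule.span ℚ {f | ∃ l, Pos l ∧ l.sum = w ∧ f = LL l}

theorem LL_mem {l : List ℕ} (h : Pos l) : LL l ∈ GG l.sum := Submodule.subset_span ⟨l, h, rfl, rfl⟩

theorem InSh_mem {w : ℕ} {f : ℚ⟦X⟧} (hf : f ∈ GG w) : In (Sh f) ∈ GG (w + 1) := by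
  induction hf using Submodule.span_induction with
  | mem f hf =>
    obtain ⟨l, hl, hw, rfl⟩ := hf
    rw [← LL_one]
    have := LL_mem (hl.cons le_rfl (a := 1))
    rwa [List.sum_cons, hw, add_comm] at this
  | zero => rw [map_zero, map_zero]; exact zero_mem _
  | add f g _ _ h1 h2 => rw [map_add, map_add]; exact add_mem h1 h2
  | smul c f _ h => rw [map_smul, map_smul]; exact Submodule.smul_mem _ _ h

theorem In_mem {w : ℕ} (hw0 : 1 ≤ w) {f : ℚ⟦X⟧} (hf : f ∈ GG w) : In f ∈ GG (w + 1) := by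
  induction hf using Submodule.span_induction with
  | mem f hf =>
    obtain ⟨l, hl, hw, rfl⟩ := hf
    rcases l with _ | ⟨a, l⟩
    · simp at hw; omega
    rw [← LL_succ]
    have := LL_mem (hl.tail.cons (a := a + 1) (by omega))
    rw [List.sum_cons] at this hw
    have e : a + 1 + l.sum = w + 1 := by omega
    rwa [e] at this
  | zero => rw [map_zero]; exact zero_mem _
  | add f g _ _ h1 h2 => rw [map_add]; exact add_mem h1 h2
  | smul c f _ h => rw [map_smul]; exact Submodule.smul_mem _ _ h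

/-- one half of the shuffle product -/
theorem half {a : ℕ} {l : List ℕ} (h : Pos (a :: l)) (g : ℚ⟦X⟧) (v : ℕ)
    (H1 : a = 1 → LL l * g ∈ GG (l.sum + v))
    (H2 : ∀ b, a = b + 1 → 1 ≤ b → LL (b :: l) * g ∈ GG (b + l.sum + v)) :
    ∃ F, LL (a :: l) = In F ∧ coeff 0 F = 0 ∧ In (F * g) ∈ GG (a + l.sum + v) := by
  have ha := h a List.mem_cons_self
  rcases Nat.eq_or_lt_of_le ha with h1 | h1
  · subst h1
    refine ⟨Sh (LL l), LL_one l, coeff_zero_Sh _, ?_⟩
    rw [Sh_mul]
    have := InSh_mem (H1 rfl)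
    have e : l.sum + v + 1 = 1 + l.sum + v := by ring
    rwa [e] at this
  · obtain ⟨b, rfl⟩ : ∃ b, a = b + 1 := ⟨a - 1, by omega⟩
    refine ⟨LL (b :: l), LL_succ b l, coeff_zero_LL b l, ?_⟩
    have := In_mem (by omega) (H2 b rfl (by omega))
    have e : b + l.sum + v + 1 = b + 1 + l.sum + v := by ring
    rwa [e] at this

/-- **Shuffle product.** -/
theorem mul_LL (n : ℕ) : ∀ l₁ l₂ : List ℕ, l₁.sum + l₂.sum ≤ n → Pos l₁ → Pos l₂ →
    LL l₁ * LL l₂ ∈ GG (l₁.sum + l₂.sum) := by
  induction n with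
  | zero =>
    intro l₁ l₂ h h1 h2
    rcases l₁ with _ | ⟨a, s⟩
    · rw [LL_nil, one_mul, List.sum_nil, zero_add]; exact LL_mem h2
    · have := h1 a List.mem_cons_self
      rw [List.sum_cons] at h
      omega
  | succ n ih =>
    intro l₁ l₂ h h1 h2
    rcases l₁ with _ | ⟨a, s⟩
    · rw [LL_nil, one_mul, List.sum_nil, zero_add]; exact LL_mem h2
    rcases l₂ with _ | ⟨b, t⟩
    · rw [LL_nil, mul_one, List.sum_nil, add_zero]; exact LL_mem h1
    have ha := h1 a List.mem_cons_self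
    have hb := h2 b List.mem_cons_self
    rw [List.sum_cons, List.sum_cons] at h
    obtain ⟨F, hF, hF0, hF1⟩ := half h1 (LL (b :: t)) (b + t.sum)
      (fun ha1 => by
        have := ih s (b :: t) (by rw [List.sum_cons]; omega) h1.tail h2
        rwa [List.sum_cons] at this)
      (fun c hc hc1 => by
        have := ih (c :: s) (b :: t) (by rw [List.sum_cons, List.sum_cons]; omega)
          (h1.tail.cons hc1) h2
        rwa [List.sum_cons, List.sum_cons] at this)
    obtain ⟨G, hG, hG0, hG1⟩ := half h2 (LL (a :: s)) (a + s.sum)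
      (fun hb1 => by
        have := ih t (a :: s) (by rw [List.sum_cons]; omega) h2.tail h1
        rwa [List.sum_cons] at this)
      (fun c hc hc1 => by
        have := ih (c :: t) (a :: s) (by rw [List.sum_cons, List.sum_cons]; omega)
          (h2.tail.cons hc1) h1
        rwa [List.sum_cons, List.sum_cons] at this)
    rw [List.sum_cons, List.sum_cons]
    have key := rota F G hF0 hG0
    rw [← hF, ← hG] at key
    rw [key]
    refine add_mem hF1 ?_
    rw [mul_comm (LL (a :: s)) G]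
    have e : b + t.sum + (a + s.sum) = a + s.sum + (b + t.sum) := by ring
    rwa [e] at hG1

end Pool.Agent.Run7.h317.CV
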