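import Pool.Agent.Run7.h317.CV.D

/-!
# Values of the multiple polylogarithms at a point of the circle
-/

set_option autoImplicit false

namespace Pool.Agent.Run7.h317.CV

open Filter Topology Finset PowerSeries

theorem sum_shift (f : ℕ → ℂ) (m : ℕ) : ∑ i ∈ Icc 1 m, f i = ∑ i ∈ range m, f (i + 1) := by
  rw [Finset.range_eq_Ico, Finset.sum_Ico_add' f 0 m 1]
  rfl

theorem co_zero (a : ℕ) (s : List ℕ) : co (a :: s) 0 = 0 := by rw [co]; simp

theorem trunc_ones (s : List ℕ) (m : ℕ) :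
    trunc (s.map fun b => (b, (1 : ℂ))) m = ∑ j ∈ Finset.range (m + 1), (co s j : ℂ) := by
  induction s generalizing m with
  | nil =>
    rw [List.map_nil, trunc_nil, Finset.sum_range_succ']
    simp [co]
  | cons a s ih =>
    rw [List.map_cons, trunc_cons, Finset.sum_range_succ', co_zero, Rat.cast_zero, add_zero,
      sum_shift]
    refine Finset.sum_congr rfl fun i _ => ?_
    rw [Nat.add_sub_cancel, ih, co, one_pow]
    push_cast
    ring

theorem trunc_om (a : ℕ) (s : List ℕ) (z : ℂ) (M : ℕ) :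
    trunc ((a, z) :: s.map fun b => (b, (1 : ℂ))) M =
      ∑ m ∈ Finset.range (M + 1), (co (a :: s) m : ℂ) * z ^ m := by
  rw [trunc_cons, Finset.sum_range_succ', co_zero, Rat.cast_zero, zero_mul, add_zero, sum_shift]
  refine Finset.sum_congr rfl fun i _ => ?_
  rw [Nat.add_sub_cancel, trunc_ones, co]
  push_cast
  ring

/-- **Abel's theorem and the Cauchy product.** -/
theorem cauchy_abel (A B C : ℕ → ℂ) (hC : ∀ n, C n = ∑ p ∈ antidiagonal n, A p.1 * B p.2)
    (x y w : ℂ) (hx : Tendsto (fun n => ∑ i ∈ range n, A i) atTop (𝓝 x))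
    (hy : Tendsto (fun n => ∑ i ∈ range n, B i) atTop (𝓝 y))
    (hw : Tendsto (fun n => ∑ i ∈ range n, C i) atTop (𝓝 w)) : w = x * y := by
  have bd : ∀ (D : ℕ → ℂ) (d : ℂ), Tendsto (fun n => ∑ i ∈ range n, D i) atTop (𝓝 d) →
      ∃ K : ℝ, ∀ n, ‖D n‖ ≤ K := by
    intro D d hd
    obtain ⟨K, hK⟩ := isBounded_iff_forall_norm_le.1 (Metric.isBounded_range_of_tendsto _ hd)
    refine ⟨K + K, fun n => ?_⟩
    have e : D n = ∑ i ∈ range (n + 1), D i - ∑ i ∈ range n, D i := by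
      rw [Finset.sum_range_succ]; ring
    rw [e]
    exact (norm_sub_le _ _).trans (add_le_add (hK _ ⟨n + 1, rfl⟩) (hK _ ⟨n, rfl⟩))
  have sm : ∀ (D : ℕ → ℂ) (d : ℂ), Tendsto (fun n => ∑ i ∈ range n, D i) atTop (𝓝 d) →
      ∀ r : ℝ, 0 ≤ r → r < 1 → Summable fun n => ‖D n * (r : ℂ) ^ n‖ := by
    intro D d hd r hr0 hr1
    obtain ⟨K, hK⟩ := bd D d hd
    refine Summable.of_nonneg_of_le (fun _ => norm_nonneg _) (fun n => ?_)
      ((summable_geometric_of_lt_one hr0 hr1).mul_left K)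
    rw [norm_mul, norm_pow, Complex.norm_real, Real.norm_of_nonneg hr0]
    exact mul_le_mul_of_nonneg_right (hK n) (pow_nonneg hr0 n)
  have hX := Complex.tendsto_tsum_powerSeries_nhdsWithin_lt hx
  have hY := Complex.tendsto_tsum_powerSeries_nhdsWithin_lt hy
  have hW := Complex.tendsto_tsum_powerSeries_nhdsWithin_lt hw
  rw [tendsto_map'_iff] at hX hY hW
  refine tendsto_nhds_unique hW ((hX.mul hY).congr' ?_)
  have hmem : Set.Ioo (0 : ℝ) 1 ∈ 𝓝[<] (1 : ℝ) := Ioo_mem_nhdsLT zero_lt_one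
  filter_upwards [hmem] with r hr
  simp only [Function.comp_apply]
  rw [tsum_mul_tsum_eq_tsum_sum_antidiagonal_of_summable_norm (sm A x hx r hr.1.le hr.2)
    (sm B y hy r hr.1.le hr.2)]
  refine tsum_congr fun n => ?_
  rw [hC, Finset.sum_mul]
  refine Finset.sum_congr rfl fun p hp => ?_
  rw [← mem_antidiagonal.1 hp, pow_add]
  ring

/-- The space of the values at `z` of weight `w`. -/
noncomputable def CC (z : ℂ) (w : ℕ) : Submodule ℚ ℂ :=
  Submodule.span ℚ {x | ∃ a s, Pos (a :: s) ∧ (a :: s).sum = w ∧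
    Tendsto (trunc ((a, z) :: s.map fun b => (b, (1 : ℂ)))) atTop (𝓝 x)}

theorem pos_val {z : ℂ} (hz : ‖z‖ = 1) {a : ℕ} {s : List ℕ} (h : Pos (a :: s)) :
    Val ((a, z) :: s.map fun b => (b, (1 : ℂ))) := by
  intro p hp
  rcases List.mem_cons.1 hp with rfl | hp
  · exact ⟨h a List.mem_cons_self, hz⟩
  · obtain ⟨b, hb, rfl⟩ := List.mem_map.1 hp
    exact ⟨h.tail b hb, norm_one⟩

theorem lim_GG {z : ℂ} (hz : ‖z‖ = 1) (hz1 : z ≠ 1) {w : ℕ} (hw : 1 ≤ w) {f : ℚ⟦X⟧}
    (hf : f ∈ GG w) : ∃ x ∈ CC z w,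
      Tendsto (fun M => ∑ m ∈ range M, ((coeff m f : ℚ) : ℂ) * z ^ m) atTop (𝓝 x) := by
  induction hf using Submodule.span_induction with
  | mem f hf =>
    obtain ⟨l, hl, hlw, rfl⟩ := hf
    rcases l with _ | ⟨a, s⟩
    · simp at hlw; omega
    obtain ⟨x, hx⟩ := exists_lim a z _ (pos_val hz hl) (fun h => hz1 (congrArg Prod.snd h))
    refine ⟨x, Submodule.subset_span ⟨a, s, hl, hlw, hx⟩, ?_⟩
    rw [← tendsto_add_atTop_iff_nat 1]
    refine hx.congr fun M => ?_
    rw [trunc_om]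
    simp only [coeff_LL]
  | zero =>
    refine ⟨0, zero_mem _, ?_⟩
    simp
  | add f g _ _ h1 h2 =>
    obtain ⟨x, hx, hx'⟩ := h1
    obtain ⟨y, hy, hy'⟩ := h2
    refine ⟨x + y, add_mem hx hy, (hx'.add hy').congr fun M => ?_⟩
    rw [← Finset.sum_add_distrib]
    refine Finset.sum_congr rfl fun i _ => ?_
    rw [map_add]
    push_cast
    ring
  | smul c f _ h =>
    obtain ⟨x, hx, hx'⟩ := h
    refine ⟨c • x, Submodule.smul_mem _ _ hx, (hx'.const_smul c).congr fun M => ?_⟩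
    rw [Finset.smul_sum]
    refine Finset.sum_congr rfl fun i _ => ?_
    rw [map_smul, smul_eq_mul, Rat.smul_def]
    push_cast
    ring

theorem mul_gen' {z : ℂ} (hz : ‖z‖ = 1) (hz1 : z ≠ 1) {w₁ w₂ : ℕ} {x y : ℂ}
    (hx : x ∈ {x | ∃ a s, Pos (a :: s) ∧ (a :: s).sum = w₁ ∧
      Tendsto (trunc ((a, z) :: s.map fun b => (b, (1 : ℂ)))) atTop (𝓝 x)})
    (hy : y ∈ {x | ∃ a s, Pos (a :: s) ∧ (a :: s).sum = w₂ ∧
      Tendsto (trunc ((a, z) :: s.map fun b => (b, (1 : ℂ)))) atTop (𝓝 x)}) :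
    x * y ∈ CC z (w₁ + w₂) := by
  obtain ⟨a, s, hl, hw, hx⟩ := hx
  obtain ⟨b, t, hl', hw', hy⟩ := hy
  have ha := hl a List.mem_cons_self
  rw [List.sum_cons] at hw hw'
  have hG := mul_LL _ (a :: s) (b :: t) le_rfl hl hl'
  rw [List.sum_cons, List.sum_cons, hw, hw'] at hG
  obtain ⟨u, hu, hu'⟩ := lim_GG hz hz1 (by omega) hG
  have e := cauchy_abel (fun m => (co (a :: s) m : ℂ) * z ^ m) (fun m => (co (b :: t) m : ℂ) * z ^ m)
    (fun m => ((coeff m (LL (a :: s) * LL (b :: t)) : ℚ) : ℂ) * z ^ m) (by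
      intro n
      rw [coeff_mul]
      push_cast
      rw [Finset.sum_mul]
      refine Finset.sum_congr rfl fun p hp => ?_
      rw [← mem_antidiagonal.1 hp, pow_add, coeff_LL, coeff_LL]
      ring) x y u (by
      rw [← tendsto_add_atTop_iff_nat 1]
      exact hx.congr fun M => trunc_om a s z M) (by
      rw [← tendsto_add_atTop_iff_nat 1]
      exact hy.congr fun M => trunc_om b t z M) hu'
  rwa [← e]

/-- **The product of two values.** -/
theorem mul_CC {z : ℂ} (hz : ‖z‖ = 1) (hz1 : z ≠ 1) {w₁ w₂ : ℕ} {x y : ℂ}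
    (hx : x ∈ CC z w₁) (hy : y ∈ CC z w₂) : x * y ∈ CC z (w₁ + w₂) := by
  induction hx using Submodule.span_induction with
  | mem x hx =>
    induction hy using Submodule.span_induction with
    | mem y hy => exact mul_gen' hz hz1 hx hy
    | zero => rw [mul_zero]; exact zero_mem _
    | add y z _ _ h1 h2 => rw [mul_add]; exact add_mem h1 h2
    | smul c y _ h => rw [mul_smul_comm]; exact Submodule.smul_mem _ _ h
  | zero => rw [zero_mul]; exact zero_mem _
  | add x z _ _ h1 h2 => rw [add_mul]; exact add_mem h1 h2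
  | smul c x _ h => rw [smul_mul_assoc]; exact Submodule.smul_mem _ _ h

end Pool.Agent.Run7.h317.CV
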