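import Pool.Agent.Run7.h317.CV.D2
import Pool.Agent.Run7.h317.CV.B

/-!
# Special values
-/

set_option autoImplicit false

namespace Pool.Agent.Run7.h317.CV

open Filter Topology Finset

theorem re_lt_one {z : ℂ} (hz : ‖z‖ = 1) (hz1 : z ≠ 1) : z.re < 1 := by
  have h1 : z.re ≤ 1 := hz ▸ Complex.re_le_norm z
  rcases lt_or_eq_of_le h1 with h | h
  · exact h
  · exfalso
    have h2 : z.re ^ 2 + z.im ^ 2 = 1 := by
      have := Complex.sq_norm z
      rw [hz, Complex.normSq_apply] at this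
      nlinarith
    rw [h] at h2
    have h3 : z.im = 0 := by nlinarith [sq_nonneg z.im]
    exact hz1 (Complex.ext (by simpa using h) (by simpa using h3))

/-- weight one: `Li_1(z) = -log(1 - z)` on the unit circle -/
theorem lim_one (z : ℂ) (hz : ‖z‖ = 1) (hz1 : z ≠ 1) :
    Tendsto (trunc [(1, z)]) atTop (𝓝 (-Complex.log (1 - z))) := by
  obtain ⟨x, hx⟩ := exists_lim 1 z [] (by
    intro p hp
    rw [List.mem_singleton] at hp
    subst hp
    exact ⟨le_rfl, hz⟩) (fun h => hz1 (congrArg Prod.snd h))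
  have h1 : Tendsto (fun n => ∑ i ∈ range n, z ^ i / (i : ℂ)) atTop (𝓝 x) := by
    rw [← tendsto_add_atTop_iff_nat 1]
    refine hx.congr fun M => ?_
    rw [trunc_cons, Finset.sum_range_succ', sum_shift]
    simp [trunc_nil]
  have h2 := Complex.tendsto_tsum_powerSeries_nhdsWithin_lt h1
  rw [tendsto_map'_iff] at h2
  have h3 : Tendsto (fun r : ℝ => -Complex.log (1 - z * r)) (𝓝[<] 1) (𝓝 (-Complex.log (1 - z))) := by
    have hs : 1 - z * ((1 : ℝ) : ℂ) ∈ Complex.slitPlane := by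
      left
      simp only [Complex.ofReal_one, mul_one, Complex.sub_re, Complex.one_re]
      linarith [re_lt_one hz hz1]
    have h4 : ContinuousAt (fun r : ℝ => -Complex.log (1 - z * r)) 1 := by
      refine ContinuousAt.neg (ContinuousAt.clog (f := fun r : ℝ => 1 - z * r) ?_ hs)
      fun_prop
    have h5 := h4.tendsto.mono_left (nhdsWithin_le_nhds (s := Set.Iio 1))
    simpa using h5
  have h6 : x = -Complex.log (1 - z) := by
    refine tendsto_nhds_unique h2 (h3.congr' ?_)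
    have hmem : Set.Ioo (0 : ℝ) 1 ∈ 𝓝[<] (1 : ℝ) := Ioo_mem_nhdsLT zero_lt_one
    filter_upwards [hmem] with r hr
    simp only [Function.comp_apply]
    have h7 : ‖z * (r : ℂ)‖ < 1 := by
      rw [norm_mul, hz, one_mul, Complex.norm_real, Real.norm_of_nonneg hr.1.le]
      exact hr.2
    rw [← (Complex.hasSum_taylorSeries_neg_log h7).tsum_eq]
    refine tsum_congr fun n => ?_
    rw [mul_pow]
    ring
  rwa [h6] at hx

/-- the primitive sixth root of unity `e^(πi/3)` -/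
noncomputable def om : ℂ := Complex.exp (Real.pi * Complex.I / 3)

theorem om_eq : om = Complex.exp (((Real.pi / 3 : ℝ) : ℂ) * Complex.I) := by
  rw [om]; congr 1; push_cast; ring

theorem om_re : om.re = 1 / 2 := by
  rw [om_eq, Complex.exp_ofReal_mul_I_re, Real.cos_pi_div_three]

theorem om_im : om.im = Real.sqrt 3 / 2 := by
  rw [om_eq, Complex.exp_ofReal_mul_I_im, Real.sin_pi_div_three]

theorem om_norm : ‖om‖ = 1 := by
  rw [om_eq, Complex.norm_exp_ofReal_mul_I]

theorem om_ne : om ≠ 1 := by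
  intro h
  have := om_re
  rw [h, Complex.one_re] at this
  norm_num at this

theorem one_sub_om : 1 - om = Complex.exp (((-(Real.pi / 3) : ℝ) : ℂ) * Complex.I) := by
  apply Complex.ext
  · rw [Complex.sub_re, Complex.one_re, om_re, Complex.exp_ofReal_mul_I_re, Real.cos_neg,
      Real.cos_pi_div_three]
    norm_num
  · rw [Complex.sub_im, Complex.one_im, om_im, Complex.exp_ofReal_mul_I_im, Real.sin_neg,
      Real.sin_pi_div_three]
    norm_num

theorem log_om : -Complex.log (1 - om) = Real.pi * Complex.I / 3 := by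
  rw [one_sub_om, Complex.log_exp]
  · push_cast; ring
  · simp
    linarith [Real.pi_pos]
  · simp
    linarith [Real.pi_pos]

theorem om_sq : om ^ 2 = om - 1 := by
  have h := one_sub_om
  have h1 : om * (1 - om) = 1 := by
    rw [h, om_eq, ← Complex.exp_add, ← Complex.exp_zero]
    congr 1
    push_cast
    ring
  linear_combination -h1

theorem om_cube : om ^ 3 = -1 := by
  have := om_sq
  linear_combination (om + 1) * this

theorem om_six : om ^ 6 = 1 := by
  have := om_cube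
  linear_combination (om ^ 3 - 1) * this

theorem om_pow_re (n : ℕ) : 2 * (om ^ n).re =
    1 - 2 * (if 2 ∣ n then 1 else 0) - 3 * (if 3 ∣ n then 1 else 0) +
      6 * (if 6 ∣ n then 1 else 0) := by
  have h : om ^ n = om ^ (n % 6) := by
    conv_lhs => rw [← Nat.div_add_mod n 6, pow_add, pow_mul, om_six, one_pow, one_mul]
  have d2 : 2 ∣ n ↔ 2 ∣ n % 6 := by omega
  have d3 : 3 ∣ n ↔ 3 ∣ n % 6 := by omega
  have d6 : 6 ∣ n ↔ 6 ∣ n % 6 := by omega
  rw [h]
  simp only [d2, d3, d6]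
  have hlt : n % 6 < 6 := Nat.mod_lt _ (by norm_num)
  have e1 := om_re
  have e2 : (om ^ 2).re = -(1 / 2) := by
    rw [om_sq, Complex.sub_re, om_re, Complex.one_re]; norm_num
  have e3 : (om ^ 3).re = -1 := by rw [om_cube]; simp
  have e4 : (om ^ 4).re = -(1 / 2) := by
    have : om ^ 4 = -om := by linear_combination om * om_cube
    rw [this, Complex.neg_re, om_re]
  have e5 : (om ^ 5).re = 1 / 2 := by
    have : om ^ 5 = -om ^ 2 := by linear_combination om ^ 2 * om_cube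
    rw [this, Complex.neg_re, e2]; norm_num
  generalize n % 6 = k at *
  interval_cases k
  · norm_num
  · rw [pow_one, e1]; norm_num
  · rw [e2]; norm_num
  · rw [e3]; norm_num
  · rw [e4]; norm_num
  · rw [e5]; norm_num

theorem om_pow_im (n : ℕ) : (om ^ n).im = Real.sin (2 * Real.pi * n * (1 / 6)) := by
  rw [om_eq, ← Complex.exp_nat_mul]
  have : (n : ℂ) * ((((Real.pi / 3 : ℝ) : ℂ)) * Complex.I) =
      ((2 * Real.pi * n * (1 / 6) : ℝ) : ℂ) * Complex.I := by
    push_cast; ring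
  rw [this, Complex.exp_ofReal_mul_I_im]

/-- `ζ(3)` -/
noncomputable def z3' : ℝ := ∑' n : ℕ, (1 : ℝ) / ((n : ℝ) + 1) ^ 3

theorem hasSum_z3 : HasSum (fun n : ℕ => 1 / (n : ℝ) ^ 3) z3' := by
  have h1 : Summable fun n : ℕ => 1 / (n : ℝ) ^ 3 := Real.summable_one_div_nat_pow.2 (by norm_num)
  have h2 := h1.hasSum
  rw [h1.tsum_eq_zero_add] at h2
  have h3 : z3' = 1 / ((0 : ℕ) : ℝ) ^ 3 + ∑' b : ℕ, 1 / ((b + 1 : ℕ) : ℝ) ^ 3 := by
    rw [z3']
    simp
  rwa [← h3] at h2

theorem hasSum_dvd (d : ℕ) (hd : 0 < d) :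
    HasSum (fun n : ℕ => (if d ∣ n then 1 else 0) * (1 / (n : ℝ) ^ 3)) (z3' / (d : ℝ) ^ 3) := by
  have hinj : Function.Injective fun n : ℕ => d * n := fun a b h => Nat.eq_of_mul_eq_mul_left hd h
  rw [← hinj.hasSum_iff]
  · have h := hasSum_z3.div_const ((d : ℝ) ^ 3)
    have e : ((fun n : ℕ => (if d ∣ n then (1 : ℝ) else 0) * (1 / (n : ℝ) ^ 3)) ∘ fun n : ℕ => d * n) =
        fun n : ℕ => 1 / (n : ℝ) ^ 3 / (d : ℝ) ^ 3 := by
      funext n
      rw [Function.comp_apply, if_pos (Dvd.intro n rfl), one_mul]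
      push_cast
      rw [mul_pow, div_div, mul_comm]
    rw [e]
    exact h
  · intro x hx
    rw [if_neg, zero_mul]
    rintro ⟨k, rfl⟩
    exact hx ⟨k, rfl⟩

theorem hasSum_re : HasSum (fun n : ℕ => (om ^ n).re * (1 / (n : ℝ) ^ 3)) (z3' / 3) := by
  have h := (((hasSum_z3.sub ((hasSum_dvd 2 (by norm_num)).mul_left 2)).sub
    ((hasSum_dvd 3 (by norm_num)).mul_left 3)).add ((hasSum_dvd 6 (by norm_num)).mul_left 6)).div_const 2
  have e : (z3' - 2 * (z3' / ((2 : ℕ) : ℝ) ^ 3) - 3 * (z3' / ((3 : ℕ) : ℝ) ^ 3) +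
      6 * (z3' / ((6 : ℕ) : ℝ) ^ 3)) / 2 = z3' / 3 := by
    push_cast; ring
  rw [e] at h
  have e3 : (fun n : ℕ => (om ^ n).re * (1 / (n : ℝ) ^ 3)) = fun i : ℕ =>
      (1 / (i : ℝ) ^ 3 - 2 * ((if 2 ∣ i then 1 else 0) * (1 / (i : ℝ) ^ 3)) -
        3 * ((if 3 ∣ i then 1 else 0) * (1 / (i : ℝ) ^ 3)) +
          6 * ((if 6 ∣ i then 1 else 0) * (1 / (i : ℝ) ^ 3))) / 2 := by
    funext n
    have := om_pow_re n
    have e2 : (om ^ n).re = (1 - 2 * (if 2 ∣ n then 1 else 0) - 3 * (if 3 ∣ n then 1 else 0) +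
        6 * (if 6 ∣ n then 1 else 0)) / 2 := by linarith
    rw [e2]
    ring
  rw [e3]
  exact h

theorem hasSum_im : ∃ q : ℚ, HasSum (fun n : ℕ => (om ^ n).im * (1 / (n : ℝ) ^ 3))
    (q * Real.pi ^ 3) := by
  have h := hasSum_one_div_nat_pow_mul_sin (k := 1) one_ne_zero (x := 1 / 6) (by norm_num)
  refine ⟨4 / 6 * (Polynomial.bernoulli 3).eval (1 / 6 : ℚ), ?_⟩
  have e : ((-1 : ℝ)) ^ (1 + 1) * (2 * Real.pi) ^ (2 * 1 + 1) / 2 / ((2 * 1 + 1).factorial : ℝ) *
      Polynomial.eval (1 / 6 : ℝ) (Polynomial.map (algebraMap ℚ ℝ) (Polynomial.bernoulli (2 * 1 + 1)))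
      = ((4 / 6 * (Polynomial.bernoulli 3).eval (1 / 6 : ℚ) : ℚ) : ℝ) * Real.pi ^ 3 := by
    have e1 : Polynomial.eval (1 / 6 : ℝ)
        (Polynomial.map (algebraMap ℚ ℝ) (Polynomial.bernoulli (2 * 1 + 1))) =
        (((Polynomial.bernoulli 3).eval (1 / 6 : ℚ) : ℚ) : ℝ) := by
      have h6 : (1 / 6 : ℝ) = algebraMap ℚ ℝ (1 / 6) := by
        rw [eq_ratCast]; push_cast; rfl
      rw [h6, Polynomial.eval_map, Polynomial.eval₂_at_apply]
      rfl
    rw [e1]
    have : ((2 * 1 + 1).factorial : ℝ) = 6 := by norm_num [Nat.factorial]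
    rw [this]
    push_cast
    ring
  rw [e] at h
  convert h using 2 with n
  rw [om_pow_im]
  norm_num
  ring

theorem lim_three : ∃ q : ℚ, Tendsto (trunc [(3, om)]) atTop
    (𝓝 ((z3' / 3 : ℝ) + ((q * Real.pi ^ 3 : ℝ) : ℂ) * Complex.I)) := by
  obtain ⟨q, hq⟩ := hasSum_im
  refine ⟨q, ?_⟩
  have h : HasSum (fun n : ℕ => om ^ n * (1 / (n : ℂ) ^ 3))
      ((z3' / 3 : ℝ) + ((q * Real.pi ^ 3 : ℝ) : ℂ) * Complex.I) := by
    rw [Complex.hasSum_iff]
    have e1 : ∀ n : ℕ, om ^ n * (1 / (n : ℂ) ^ 3) = om ^ n * ((1 / (n : ℝ) ^ 3 : ℝ) : ℂ) := by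
      intro n; push_cast; rfl
    constructor
    · convert hasSum_re using 1
      · funext n
        rw [e1, Complex.re_mul_ofReal]
      · rw [Complex.add_re, Complex.ofReal_re, Complex.re_ofReal_mul, Complex.I_re, mul_zero,
          add_zero]
    · convert hq using 1
      · funext n
        rw [e1, Complex.im_mul_ofReal]
      · rw [Complex.add_im, Complex.ofReal_im, Complex.im_ofReal_mul, Complex.I_im, mul_one,
          zero_add]
  have h2 := h.tendsto_sum_nat
  rw [← tendsto_add_atTop_iff_nat 1] at h2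
  refine h2.congr fun M => ?_
  rw [trunc_cons, Finset.sum_range_succ', sum_shift]
  simp [trunc_nil, div_eq_mul_inv]

end Pool.Agent.Run7.h317.CV
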