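import Pool.Agent.Run7.h317.CV.E
import Pool.Agent.R317.MZW

/-!
# Multiple Clausen values: lower bounds for the dimensions of sums over the weights
-/

set_option autoImplicit false

namespace Pool.Agent.Run7.h317.CV

open Filter Topology Finset Polynomial
open Pool.Agent.R317.Mon Pool.Agent.W245.HF
open Pool.Agent.H447R2.MZ (z3)

theorem CC_one_mem {z : ℂ} {a : ℕ} (ha : 1 ≤ a) {x : ℂ} (h : Tendsto (trunc [(a, z)]) atTop (𝓝 x)) :
    x ∈ CC z a := by
  refine Submodule.subset_span ⟨a, [], ?_, by simp, by simpa using h⟩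
  intro k hk
  rw [List.mem_singleton] at hk
  omega

theorem ipi_mem : (Real.pi : ℂ) * Complex.I ∈ CC om 1 := by
  have h := CC_one_mem le_rfl (lim_one om om_norm om_ne)
  rw [log_om] at h
  have h2 := Submodule.smul_mem _ (3 : ℚ) h
  rw [Rat.smul_def] at h2
  have e : ((3 : ℚ) : ℂ) * (Real.pi * Complex.I / 3) = Real.pi * Complex.I := by
    push_cast; ring
  rwa [e] at h2

theorem z3_eq : z3' = z3 := rfl

theorem pow_mem' {w : ℕ} {x : ℂ} (hx : x ∈ CC om w) (c : ℕ) (hc : 1 ≤ c) : x ^ c ∈ CC om (c * w) := by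
  induction c with
  | zero => omega
  | succ c ih =>
    rcases Nat.eq_zero_or_pos c with rfl | h0
    · simpa using hx
    · rw [pow_succ, Nat.succ_mul]
      exact mul_CC om_norm om_ne (ih h0) hx

theorem z3_mem : ((z3 : ℝ) : ℂ) ∈ CC om 3 := by
  obtain ⟨q, hq⟩ := lim_three
  have h1 := CC_one_mem (by norm_num) hq
  have h2 := pow_mem' ipi_mem 3 (by norm_num)
  rw [mul_one] at h2
  have h3 := Submodule.smul_mem _ (3 : ℚ) (Submodule.add_mem _ h1 (Submodule.smul_mem _ q h2))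
  rw [Rat.smul_def, Rat.smul_def] at h3
  have e : ((3 : ℚ) : ℂ) * ((((z3' / 3 : ℝ) : ℂ) + ((q * Real.pi ^ 3 : ℝ) : ℂ) * Complex.I) +
      (q : ℂ) * ((Real.pi : ℂ) * Complex.I) ^ 3) = ((z3 : ℝ) : ℂ) := by
    rw [z3_eq, mul_pow, pow_succ Complex.I 2, Complex.I_sq]
    push_cast
    ring
  rwa [e] at h3

theorem mon (a b : ℕ) (h : 1 ≤ a + b) :
    ((Real.pi : ℂ) * Complex.I) ^ a * ((z3 : ℝ) : ℂ) ^ b ∈ CC om (a + 3 * b) := by
  rcases Nat.eq_zero_or_pos a with rfl | ha
  · rw [pow_zero, one_mul, zero_add, mul_comm 3 b]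
    exact pow_mem' z3_mem b (by omega)
  · rcases Nat.eq_zero_or_pos b with rfl | hb
    · rw [pow_zero, mul_one]
      simpa using pow_mem' ipi_mem a ha
    · have := mul_CC om_norm om_ne (pow_mem' ipi_mem a ha) (pow_mem' z3_mem b hb)
      rwa [mul_one, mul_comm b 3] at this

/-- real numbers -/
noncomputable def eR : ℝ →ₗ[ℚ] ℂ where
  toFun r := (r : ℂ)
  map_add' r s := by push_cast; rfl
  map_smul' c r := by
    rw [Rat.smul_def, RingHom.id_apply, Rat.smul_def]
    push_cast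
    rfl

/-- multiples of `iπ` -/
noncomputable def eI : ℝ →ₗ[ℚ] ℂ where
  toFun r := (Real.pi : ℂ) * Complex.I * (r : ℂ)
  map_add' r s := by push_cast; ring
  map_smul' c r := by
    rw [Rat.smul_def, RingHom.id_apply, Rat.smul_def]
    push_cast
    ring

theorem eR_apply (r : ℝ) : eR r = (r : ℂ) := rfl
theorem eI_apply (r : ℝ) : eI r = (Real.pi : ℂ) * Complex.I * (r : ℂ) := rfl

theorem two_parts (V : Submodule ℚ ℂ) :
    Module.rank ℚ (V.comap eR) + Module.rank ℚ (V.comap eI) ≤ Module.rank ℚ V := by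
  rw [← rank_prod']
  let f : ((V.comap eR) × (V.comap eI)) →ₗ[ℚ] V :=
    { toFun := fun p => ⟨eR p.1.1 + eI p.2.1, add_mem p.1.2 p.2.2⟩
      map_add' := fun p q => by
        apply Subtype.ext
        simp only [Prod.fst_add, Prod.snd_add, Submodule.coe_add, map_add]
        ring
      map_smul' := fun c p => by
        apply Subtype.ext
        simp only [Prod.smul_fst, Prod.smul_snd, Submodule.coe_smul, map_smul, RingHom.id_apply,
          smul_add] }
  refine LinearMap.rank_le_of_injective f ?_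
  rw [← LinearMap.ker_eq_bot, eq_bot_iff]
  intro p hp
  rw [LinearMap.mem_ker] at hp
  have h : eR p.1.1 + eI p.2.1 = 0 := congrArg Subtype.val hp
  rw [eR_apply, eI_apply] at h
  have h1 := congrArg Complex.re h
  have h2 := congrArg Complex.im h
  simp at h1 h2
  rw [Submodule.mem_bot]
  refine Prod.ext ?_ ?_
  · simpa using h1
  · simpa using h2

theorem pow_ipi (a : ℕ) : ((Real.pi : ℂ) * Complex.I) ^ (2 * a) =
    ((-1 : ℚ) ^ a : ℚ) • (((Real.pi ^ 2) ^ a : ℝ) : ℂ) := by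
  rw [pow_mul, mul_pow, Complex.I_sq, Rat.smul_def]
  push_cast
  rw [← mul_pow]
  congr 1
  ring

theorem sgn_mem {V : Submodule ℚ ℂ} {a : ℕ} {x : ℂ} (h : ((-1 : ℚ) ^ a : ℚ) • x ∈ V) : x ∈ V := by
  have h2 := Submodule.smul_mem V ((-1 : ℚ) ^ a : ℚ) h
  rwa [smul_smul, ← mul_pow, neg_one_mul, neg_neg, one_pow, one_smul] at h2

theorem cont_re {V : Submodule ℚ ℂ} {W : Finset ℕ} (h0 : 0 ∈ W → (1 : ℂ) ∈ V)
    (h : ∀ n ∈ W, 1 ≤ n → CC om n ≤ V) : Cont (V.comap eR) (Real.pi ^ 2) z3 W := by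
  intro a b hab
  rw [Submodule.mem_comap, eR_apply]
  rcases Nat.eq_zero_or_pos (a + b) with hz | hz
  · have ha : a = 0 := by omega
    have hb : b = 0 := by omega
    subst ha; subst hb
    simpa using h0 (by simpa using hab)
  · refine sgn_mem (a := a) ?_
    have h1 := h _ hab (by omega) (mon (2 * a) b (by omega))
    rw [pow_ipi, smul_mul_assoc] at h1
    push_cast at h1 ⊢
    exact h1

theorem cont_im {V : Submodule ℚ ℂ} {W : Finset ℕ}
    (h : ∀ n ∈ W, CC om (n + 1) ≤ V) : Cont (V.comap eI) (Real.pi ^ 2) z3 W := by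
  intro a b hab
  rw [Submodule.mem_comap, eI_apply]
  refine sgn_mem (a := a) ?_
  have h1 := mon (2 * a + 1) b (by omega)
  have e : 2 * a + 1 + 3 * b = 2 * a + 3 * b + 1 := by ring
  rw [e] at h1
  have h2 := h _ hab h1
  rw [pow_succ, pow_ipi] at h2
  convert h2 using 1
  rw [Rat.smul_def, Rat.smul_def]
  push_cast
  ring

/-- the sum over all weights at most `N` -/
theorem sum_range {S : Submodule ℚ ℝ} {y : ℝ} {N : ℕ}
    (hS : Cont S (Real.pi ^ 2) y (Finset.range (N + 1))) (not_linear : ∀ a b : ℚ, y ≠ a + b * Real.pi ^ 2) :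
    ((2 * N / 3 + 1 : ℕ) : Cardinal) ≤ Module.rank ℚ S := by
  have hx := Pool.Agent.R317.MZW.pi_sq_tr
  have mon_mem : ∀ a b : ℕ, 2 * b + 3 * a ≤ N → (Real.pi ^ 2) ^ b * y ^ a ∈ S := fun a b h =>
    hS b a (Finset.mem_range.2 (by omega))
  by_cases hrel : ∀ A B : ℚ[X], aeval (Real.pi ^ 2) A * y = aeval (Real.pi ^ 2) B → A = 0
  · -- the first case
    refine le_trans ?_ (rank_of_inj S (pm (Real.pi ^ 2) y (Real.pi ^ 2))
      (case_one _ _ hx hrel) (N / 2 + 1) ((N - 1) / 2) ?_ ?_)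
    · exact_mod_cast (by omega : 2 * N / 3 + 1 ≤ N / 2 + 1 + (N - 1) / 2)
    · intro b hb
      have h1 := mon_mem 0 b (by omega)
      rw [pm_apply]
      simpa using h1
    · intro b hb
      have h1 := mon_mem 1 b (by omega)
      rw [pm_apply]
      simpa [mul_comm] using h1
  · obtain ⟨A, B, hc, hA, h⟩ := rational_case (Real.pi ^ 2) y hrel hx
    by_cases hdeg : 0 < A.natDegree
    · -- the second case
      refine le_trans ?_ (rank_of_inj S (pm (Real.pi ^ 2) y y)
        (case_two _ _ hx A B hc hdeg h) (N / 2 + 1) (N / 3) ?_ ?_)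
      · exact_mod_cast (by omega : 2 * N / 3 + 1 ≤ N / 2 + 1 + N / 3)
      · intro b hb
        have h1 := mon_mem 0 b (by omega)
        rw [pm_apply]
        simpa using h1
      · intro b hb
        have h1 := mon_mem (b + 1) 0 (by omega)
        rw [pm_apply]
        simpa [pow_succ, mul_comm] using h1
    · -- the third case
      obtain ⟨c, hcA⟩ : ∃ c : ℚ, A = C c := ⟨A.coeff 0, eq_C_of_natDegree_eq_zero (by omega)⟩
      have hc0 : c ≠ 0 := by
        rintro rfl
        rw [hcA, C_0] at hA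
        exact hA rfl
      have hc1 : (c : ℝ) ≠ 0 := by exact_mod_cast hc0
      have hy : y = aeval (Real.pi ^ 2) (C c⁻¹ * B) := by
        rw [map_mul, ← h, hcA, aeval_C, aeval_C]
        have e1 : (algebraMap ℚ ℝ) c⁻¹ = (c : ℝ)⁻¹ := by simp
        have e2 : (algebraMap ℚ ℝ) c = (c : ℝ) := rfl
        rw [e1, e2]
        field_simp
      have hP : 2 ≤ (C c⁻¹ * B).natDegree := by
        by_contra hlt
        rw [not_le] at hlt
        have h2 := eq_X_add_C_of_natDegree_le_one (p := C c⁻¹ * B) (by omega)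
        rw [h2, map_add, map_mul, aeval_C, aeval_C, aeval_X] at hy
        refine not_linear ((C c⁻¹ * B).coeff 0) ((C c⁻¹ * B).coeff 1) ?_
        rw [add_comm]
        exact hy
      refine le_trans ?_ (rank_of_inj S (pm y (Real.pi ^ 2) y)
        (case_three _ _ hx _ hP hy) (N / 3 + 1) ((N + 1) / 3) ?_ ?_)
      · exact_mod_cast (by omega : 2 * N / 3 + 1 ≤ N / 3 + 1 + (N + 1) / 3)
      · intro b hb
        have h1 := mon_mem b 0 (by omega)
        rw [pm_apply]
        simpa using h1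
      · intro b hb
        have h1 := mon_mem b 1 (by omega)
        rw [pm_apply]
        simpa using h1

/-- **Windows of weights.** -/
theorem window_CC {N M : ℕ} (hN : 3 ≤ N) (hNM : N ≤ M) (h1 : ¬ (N = 3 ∧ M = 5))
    (h2 : ¬ (N = 4 ∧ M = 6)) :
    ((min (M + 1 - N) (2 * M / 3 + 1 - (N + 2) / 3) +
      min (M + 1 - N) (2 * (M - 1) / 3 + 1 - (N + 1) / 3) : ℕ) : Cardinal) ≤
      Module.rank ℚ ↥(⨆ n ∈ Finset.Icc N M, CC om n) := by
  refine le_trans ?_ (two_parts _)
  have hx := Pool.Agent.R317.MZW.pi_sq_tr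
  have hC1 : Cont ((⨆ n ∈ Finset.Icc N M, CC om n).comap eR) (Real.pi ^ 2) z3 (Finset.Icc N M) :=
    cont_re (fun h0 => by rw [Finset.mem_Icc] at h0; omega) (fun n hn _ => le_iSup₂_of_le n hn le_rfl)
  have hC2 : Cont ((⨆ n ∈ Finset.Icc N M, CC om n).comap eI) (Real.pi ^ 2) z3
      (Finset.Icc (N - 1) (M - 1)) := by
    refine cont_im fun n hn => le_iSup₂_of_le (n + 1) ?_ le_rfl
    rw [Finset.mem_Icc] at hn ⊢
    omega
  have r1 := window hC1 hx Pool.Agent.R317.MZW.not_linear Pool.Agent.R317.MZW.not_pi_four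
    (by omega) hNM h1
  have r2 := window hC2 hx Pool.Agent.R317.MZW.not_linear Pool.Agent.R317.MZW.not_pi_four
    (by omega) (by omega) (by omega)
  have e : min (M - 1 + 1 - (N - 1)) (2 * (M - 1) / 3 + 1 - (N - 1 + 2) / 3) =
      min (M + 1 - N) (2 * (M - 1) / 3 + 1 - (N + 1) / 3) := by
    have e1 : M - 1 + 1 - (N - 1) = M + 1 - N := by omega
    have e2 : N - 1 + 2 = N + 1 := by omega
    rw [e1, e2]
  rw [e] at r2
  rw [Nat.cast_add]
  exact add_le_add r1 r2

/-- **All weights at most `N`.** -/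
theorem sum_CC {N : ℕ} (hN : 1 ≤ N) :
    ((2 * N / 3 + 2 * (N - 1) / 3 + 1 : ℕ) : Cardinal) ≤
      Module.rank ℚ ↥(⨆ n ∈ Finset.Icc 1 N, CC om n) := by
  set V : Submodule ℚ ℂ := ⨆ n ∈ Finset.Icc 1 N, CC om n with hV
  have hle : ∀ n ∈ Finset.Icc 1 N, CC om n ≤ V := fun n hn => le_iSup₂_of_le n hn le_rfl
  have h1 : ((2 * N / 3 + 1 + (2 * (N - 1) / 3 + 1) : ℕ) : Cardinal) ≤
      Module.rank ℚ ↥(V ⊔ Submodule.span ℚ {(1 : ℂ)}) := by
    refine le_trans ?_ (two_parts _)
    rw [Nat.cast_add]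
    refine add_le_add (sum_range (y := z3) (cont_re ?_ ?_) Pool.Agent.R317.MZW.not_linear)
      (sum_range (y := z3) (cont_im ?_) Pool.Agent.R317.MZW.not_linear)
    · intro _
      exact Submodule.mem_sup_right (Submodule.mem_span_singleton_self _)
    · intro n hn hn1
      rw [Finset.mem_range] at hn
      exact (hle n (Finset.mem_Icc.2 ⟨hn1, by omega⟩)).trans le_sup_left
    · intro n hn
      rw [Finset.mem_range] at hn
      exact (hle (n + 1) (Finset.mem_Icc.2 ⟨by omega, by omega⟩)).trans le_sup_left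
  have h2 : Module.rank ℚ ↥(V ⊔ Submodule.span ℚ {(1 : ℂ)}) ≤ Module.rank ℚ V + 1 := by
    refine (Submodule.rank_add_le_rank_add_rank _ _).trans (add_le_add le_rfl ?_)
    refine (rank_span_le _).trans ?_
    rw [Cardinal.mk_singleton]
  have h3 := h1.trans h2
  have e : (2 * N / 3 + 1 + (2 * (N - 1) / 3 + 1) : ℕ) = 2 * N / 3 + 2 * (N - 1) / 3 + 1 + 1 := by
    ring
  rw [e, Nat.cast_succ] at h3
  exact Cardinal.add_one_le_add_one_iff.1 h3

end Pool.Agent.Run7.h317.CV
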