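import Pool.Agent.Run7.h317.CV.F

/-!
# Multiple Clausen values: arbitrary sets of weights
-/

set_option autoImplicit false

namespace Pool.Agent.Run7.h317.CV

open Filter Topology Finset Polynomial
open Pool.Agent.R317.Mon Pool.Agent.W245.HF
open Pool.Agent.H447R2.MZ (z3)

/-- **Arbitrary finite sets of weights.** -/
theorem anyset_CC {W : Finset ℕ} {M : ℕ} (hW : ∀ n ∈ W, 3 ≤ n) (hM : M ∈ W) :
    ((min W.card (2 * M / 3 + 1 - (M + 1) / 2) +
      min W.card (2 * (M - 1) / 3 + 1 - M / 2) : ℕ) : Cardinal) ≤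
      Module.rank ℚ ↥(⨆ n ∈ W, CC om n) := by
  refine le_trans ?_ (two_parts _)
  have hx := Pool.Agent.R317.MZW.pi_sq_tr
  have hM3 := hW M hM
  have hC1 : Cont ((⨆ n ∈ W, CC om n).comap eR) (Real.pi ^ 2) z3 W :=
    cont_re (fun h0 => by have := hW 0 h0; omega) (fun n hn _ => le_iSup₂_of_le n hn le_rfl)
  have hC2 : Cont ((⨆ n ∈ W, CC om n).comap eI) (Real.pi ^ 2) z3 (W.image fun n => n - 1) := by
    refine cont_im fun n hn => ?_
    obtain ⟨m, hm, rfl⟩ := Finset.mem_image.1 hn
    have := hW m hm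
    have e : m - 1 + 1 = m := by omega
    rw [e]
    exact le_iSup₂_of_le m hm le_rfl
  have r1 := anyset hC1 hx Pool.Agent.R317.MZW.not_linear (fun n hn => by
    have := hW n hn; omega) hM
  have r2 := anyset (M := M - 1) hC2 hx Pool.Agent.R317.MZW.not_linear (fun n hn => by
    obtain ⟨m, hm, rfl⟩ := Finset.mem_image.1 hn
    have := hW m hm
    omega) (Finset.mem_image.2 ⟨M, hM, rfl⟩)
  have hc : (W.image fun n => n - 1).card = W.card := by
    apply Finset.card_image_of_injOn
    intro a ha b hb hab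
    have h1 := hW a ha
    have h2 := hW b hb
    simp only at hab
    omega
  have e : M - 1 + 1 = M := by omega
  rw [hc, e] at r2
  rw [Nat.cast_add]
  exact add_le_add r1 r2

end Pool.Agent.Run7.h317.CV
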