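import Pool.Agent.Run7.h317.CV.E
import Pool.Agent.H297R2.InBakerThm

/-!
# Alternating values
-/

set_option autoImplicit false

namespace Pool.Agent.Run7.h317.CV

open Filter Topology Finset Polynomial

theorem ZZ_one_mem {N : ℕ} {a : ℕ} (ha : 1 ≤ a) {z : ℂ} (hz : z ^ N = 1) (h1 : (a, z) ≠ ((1, 1) : ℕ × ℂ))
    {x : ℂ} (h : Tendsto (trunc [(a, z)]) atTop (𝓝 x)) : x ∈ ZZ N a := by
  refine Submodule.subset_span ⟨a, z, [], ?_, h1, by simp [wt], h⟩
  intro p hp
  rw [List.mem_singleton] at hp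
  subst hp
  exact ⟨ha, hz⟩

theorem lim_m1 : Tendsto (trunc [(1, -1)]) atTop (𝓝 (-((Real.log 2 : ℝ) : ℂ))) := by
  have h := lim_one (-1) (by simp) (by norm_num)
  have e : -Complex.log (1 - -1) = -((Real.log 2 : ℝ) : ℂ) := by
    rw [Complex.ofReal_log (by norm_num)]
    norm_num
  rwa [e] at h

theorem log2_mem : ((Real.log 2 : ℝ) : ℂ) ∈ ZZ 2 1 := by
  have h := ZZ_one_mem (N := 2) le_rfl (by norm_num) (by
    intro h
    have := congrArg Prod.snd h
    norm_num at this) lim_m1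
  simpa using h

theorem lim_21 : Tendsto (trunc [(2, 1)]) atTop (𝓝 (((Real.pi ^ 2 / 6 : ℝ)) : ℂ)) := by
  have h := Complex.hasSum_ofReal.2 hasSum_zeta_two
  have h2 := h.tendsto_sum_nat
  rw [← tendsto_add_atTop_iff_nat 1] at h2
  refine h2.congr fun M => ?_
  rw [trunc_cons, Finset.sum_range_succ', sum_shift]
  simp [trunc_nil]

theorem pi2_mem : (((Real.pi ^ 2 : ℝ)) : ℂ) ∈ ZZ 2 2 := by
  have h := ZZ_one_mem (N := 2) (by norm_num) (by norm_num) (by
    intro h
    have := congrArg Prod.fst h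
    norm_num at this) lim_21
  have h2 := Submodule.smul_mem _ (6 : ℚ) h
  rw [Rat.smul_def] at h2
  have e : ((6 : ℚ) : ℂ) * (((Real.pi ^ 2 / 6 : ℝ)) : ℂ) = (((Real.pi ^ 2 : ℝ)) : ℂ) := by
    push_cast; ring
  rwa [e] at h2

theorem pow_memZ {N w : ℕ} (hN : N ≠ 0) {x : ℂ} (hx : x ∈ ZZ N w) (c : ℕ) (hc : 1 ≤ c) :
    x ^ c ∈ ZZ N (c * w) := by
  induction c with
  | zero => omega
  | succ c ih =>
    rcases Nat.eq_zero_or_pos c with rfl | h0
    · simpa using hx
    · rw [pow_succ, Nat.succ_mul]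
      exact mul_ZZ hN (ih h0) hx

theorem mon2 (a b : ℕ) (h : 1 ≤ a + b) :
    ((Real.log 2 : ℝ) : ℂ) ^ a * (((Real.pi ^ 2 : ℝ)) : ℂ) ^ b ∈ ZZ 2 (a + 2 * b) := by
  rcases Nat.eq_zero_or_pos a with rfl | ha
  · rw [pow_zero, one_mul, zero_add, mul_comm 2 b]
    exact pow_memZ two_ne_zero pi2_mem b (by omega)
  · rcases Nat.eq_zero_or_pos b with rfl | hb
    · rw [pow_zero, mul_one]
      simpa using pow_memZ two_ne_zero log2_mem a ha
    · have := mul_ZZ two_ne_zero (pow_memZ two_ne_zero log2_mem a ha)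
        (pow_memZ two_ne_zero pi2_mem b hb)
      rwa [mul_one, mul_comm b 2] at this

theorem li_pair (r : ℝ) (hr : r ≠ 0) :
    LinearIndependent ℚ ![((r : ℝ) : ℂ), (Real.pi : ℂ) * Complex.I] := by
  rw [LinearIndependent.pair_iff]
  intro s t hst
  rw [Rat.smul_def, Rat.smul_def] at hst
  have hre := congrArg Complex.re hst
  have him := congrArg Complex.im hst
  simp [hr, Real.pi_ne_zero] at hre him
  exact ⟨hre, him⟩

theorem mon_aux (L P : ℂ) (hL : L ≠ 0) (k j : ℕ) : L ^ k * P ^ j = L ^ (k + 2 * j) * (P / L ^ 2) ^ j := by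
  rw [pow_add, pow_mul, div_pow, mul_assoc, mul_div_cancel₀]
  exact pow_ne_zero _ (pow_ne_zero _ hL)

theorem ratio_tr : Transcendental ℚ (Real.pi ^ 2 / Real.log 2 ^ 2) := by
  intro h
  have hL : Real.log 2 ≠ 0 := (Real.log_pos (by norm_num)).ne'
  have h1 : IsAlgebraic ℚ (Real.pi / Real.log 2) := by
    apply IsAlgebraic.of_pow (n := 2) (by norm_num)
    rwa [div_pow]
  have h2 : IsAlgebraic ℚ (((Real.pi / Real.log 2 : ℝ)) : ℂ) := by
    exact h1.algebraMap (A := ℂ)
  have hI : IsAlgebraic ℚ Complex.I := by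
    apply IsAlgebraic.of_pow (n := 2) (by norm_num)
    rw [Complex.I_sq]
    exact isAlgebraic_one.neg
  have hli := li_pair (Real.log 2) hL
  have hb := Pool.Agent.H297R2.baker_inhom ![((Real.log 2 : ℝ) : ℂ), (Real.pi : ℂ) * Complex.I]
    (by
      intro i
      fin_cases i
      · simp only [Fin.zero_eta, Matrix.cons_val_zero]
        rw [← Complex.ofReal_exp, Real.exp_log (by norm_num)]
        exact_mod_cast isAlgebraic_nat 2
      · simp only [Fin.mk_one, Matrix.cons_val_one, Matrix.cons_val_zero]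
        rw [Complex.exp_pi_mul_I]
        exact isAlgebraic_one.neg) hli 0 isAlgebraic_zero
    ![-(((Real.pi / Real.log 2 : ℝ)) : ℂ) * Complex.I, 1] (by
      intro i
      fin_cases i
      · exact h2.neg.mul hI
      · exact isAlgebraic_one) (by
      rw [Fin.sum_univ_two]
      simp only [Matrix.cons_val_zero, Matrix.cons_val_one]
      push_cast
      have hL' : (Real.log 2 : ℂ) ≠ 0 := by exact_mod_cast hL
      field_simp
      ring)
  have := hb.2 1
  simp at this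

/-- **Single weights, level two.** -/
theorem rank_ZZ2 (w : ℕ) (hw : 1 ≤ w) :
    ((w / 2 + 1 : ℕ) : Cardinal) ≤ Module.rank ℚ (ZZ 2 w) := by
  have hL : Real.log 2 ≠ 0 := (Real.log_pos (by norm_num)).ne'
  have hL' : ((Real.log 2 : ℝ) : ℂ) ≠ 0 := by exact_mod_cast hL
  set t : ℝ := Real.pi ^ 2 / Real.log 2 ^ 2 with ht
  let v : Fin (w / 2 + 1) → ZZ 2 w := fun j =>
    ⟨((Real.log 2 : ℝ) : ℂ) ^ (w - 2 * j) * (((Real.pi ^ 2 : ℝ)) : ℂ) ^ (j : ℕ), by
      have hj := j.2
      have := mon2 (w - 2 * j) j (by omega)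
      have e : w - 2 * (j : ℕ) + 2 * j = w := by omega
      rwa [e] at this⟩
  have hv : ∀ j, ((v j : ZZ 2 w) : ℂ) = ((Real.log 2 : ℝ) : ℂ) ^ w * ((t ^ (j : ℕ) : ℝ) : ℂ) := by
    intro j
    have hj := j.2
    have e : w - 2 * (j : ℕ) + 2 * j = w := by omega
    change ((Real.log 2 : ℝ) : ℂ) ^ (w - 2 * j) * (((Real.pi ^ 2 : ℝ)) : ℂ) ^ (j : ℕ) = _
    rw [mon_aux _ _ hL', e, ht]
    push_cast
    rfl
  have hli : LinearIndependent ℚ v := by
    rw [Fintype.linearIndependent_iff]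
    intro g hg
    have h1 : ∑ j, (g j : ℂ) * (((Real.log 2 : ℝ) : ℂ) ^ w * ((t ^ (j : ℕ) : ℝ) : ℂ)) = 0 := by
      have h2 := congrArg Subtype.val hg
      rw [Submodule.coe_zero, AddSubmonoidClass.coe_finset_sum] at h2
      rw [← h2]
      refine Finset.sum_congr rfl fun j _ => ?_
      rw [Submodule.coe_smul, hv, Rat.smul_def]
    have h3 : ((Real.log 2 : ℝ) : ℂ) ^ w * ((∑ j, (g j : ℝ) * t ^ (j : ℕ) : ℝ) : ℂ) = 0 := by
      rw [← h1]
      push_cast
      rw [Finset.mul_sum]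
      refine Finset.sum_congr rfl fun j _ => ?_
      ring
    have h4 : ∑ j, (g j : ℝ) * t ^ (j : ℕ) = 0 := by
      rcases mul_eq_zero.1 h3 with h | h
      · exact absurd h (pow_ne_zero _ hL')
      · exact_mod_cast h
    let P : ℚ[X] := ∑ j : Fin (w / 2 + 1), C (g j) * X ^ (j : ℕ)
    have hP : aeval t P = 0 := by
      rw [map_sum, ← h4]
      refine Finset.sum_congr rfl fun j _ => ?_
      rw [map_mul, aeval_C, map_pow, aeval_X]
      rfl
    have hP0 : P = 0 := (transcendental_iff.1 ratio_tr) P hP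
    intro i
    have h5 : P.coeff i = g i := by
      rw [finset_sum_coeff]
      simp only [coeff_C_mul, coeff_X_pow]
      rw [Finset.sum_eq_single i]
      · simp
      · intro j _ hj
        rw [if_neg (fun h => hj (Fin.ext h.symm)), mul_zero]
      · intro h; exact absurd (Finset.mem_univ i) h
    rw [← h5, hP0, coeff_zero]
  have := hli.cardinal_le_rank
  rwa [Cardinal.mk_fin] at this

end Pool.Agent.Run7.h317.CV
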