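import Pool.Agent.Run7.h317.CV.F
import Pool.Agent.Run7.h317.CV.G

/-!
# The weights one and two
-/

set_option autoImplicit false

namespace Pool.Agent.Run7.h317.CV

open Filter Topology Finset

theorem sq1 {z : ℂ} (h : z ^ 2 = 1) : z = 1 ∨ z = -1 := by
  rw [sq, mul_self_eq_one_iff] at h
  exact h

theorem pos_zero {s : List ℕ} (h : Pos s) (h0 : s.sum = 0) : s = [] := by
  rcases s with _ | ⟨b, s⟩
  · rfl
  · have := h b List.mem_cons_self
    rw [List.sum_cons] at h0
    omega

theorem pos_one {s : List ℕ} (h : Pos s) (h0 : s.sum = 1) : s = [1] := by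
  rcases s with _ | ⟨b, s⟩
  · simp at h0
  · have := h b List.mem_cons_self
    rw [List.sum_cons] at h0
    have h1 : b = 1 := by omega
    subst h1
    rw [pos_zero h.tail (by omega)]

theorem lev_zero {l : List (ℕ × ℂ)} (h : Lev 2 l) (h0 : wt l = 0) : l = [] := by
  rcases l with _ | ⟨⟨b, z⟩, l⟩
  · rfl
  · have := (h (b, z) List.mem_cons_self).1
    rw [wt_cons] at h0
    simp only at this
    omega

theorem lev_one {l : List (ℕ × ℂ)} (h : Lev 2 l) (h0 : wt l = 1) : l = [(1, 1)] ∨ l = [(1, -1)] := by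
  rcases l with _ | ⟨⟨b, z⟩, l⟩
  · simp [wt] at h0
  · have := (h (b, z) List.mem_cons_self)
    rw [wt_cons] at h0
    simp only at this
    have h1 : b = 1 := by omega
    subst h1
    rw [lev_zero h.tail (by omega)]
    rcases sq1 this.2 with h | h
    · left; rw [h]
    · right; rw [h]

theorem rank_le_one {x : ℂ} {V : Submodule ℚ ℂ} (h : V ≤ Submodule.span ℚ {x}) : Module.rank ℚ V ≤ 1 := by
  refine (Submodule.rank_mono h).trans ((rank_span_le _).trans ?_)
  rw [Cardinal.mk_singleton]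

theorem rank_le_two {x y : ℂ} {V : Submodule ℚ ℂ} (h : V ≤ Submodule.span ℚ {x, y}) :
    Module.rank ℚ V ≤ 2 := by
  refine (Submodule.rank_mono h).trans ((rank_span_le _).trans ?_)
  refine (Cardinal.mk_insert_le).trans ?_
  rw [Cardinal.mk_singleton]
  norm_num

theorem one_le_rank {x : ℂ} {V : Submodule ℚ ℂ} (hx : x ∈ V) (h0 : x ≠ 0) : 1 ≤ Module.rank ℚ V := by
  have hli : LinearIndependent ℚ (fun _ : Fin 1 => (⟨x, hx⟩ : V)) := by
    rw [Fintype.linearIndependent_iff]
    intro g hg i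
    rw [Fin.sum_univ_one] at hg
    have h1 := congrArg Subtype.val hg
    rw [Submodule.coe_smul, Submodule.coe_zero] at h1
    have h2 : i = 0 := Subsingleton.elim _ _
    rw [h2]
    exact (smul_eq_zero.1 h1).resolve_right h0
  have := hli.cardinal_le_rank
  simpa using this

theorem two_le_rank {x y : ℂ} {V : Submodule ℚ ℂ} (hx : x ∈ V) (hy : y ∈ V)
    (hli : LinearIndependent ℚ ![x, y]) : 2 ≤ Module.rank ℚ V := by
  have h2 : LinearIndependent ℚ ![(⟨x, hx⟩ : V), ⟨y, hy⟩] := by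
    rw [LinearIndependent.pair_iff] at hli ⊢
    intro s t hst
    exact hli s t (by
      have := congrArg Subtype.val hst
      simpa using this)
  have := h2.cardinal_le_rank
  simpa using this

theorem rank_CC1 : Module.rank ℚ (CC om 1) = 1 := by
  apply le_antisymm
  · apply rank_le_one (x := -Complex.log (1 - om))
    rw [CC, Submodule.span_le]
    rintro x ⟨a, s, h1, h2, h3⟩
    have ha := h1 a List.mem_cons_self
    rw [List.sum_cons] at h2
    have : a = 1 := by omega
    subst this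
    rw [pos_zero h1.tail (by omega)] at h3
    rw [tendsto_nhds_unique h3 (lim_one om om_norm om_ne)]
    exact Submodule.mem_span_singleton_self _
  · refine one_le_rank ipi_mem ?_
    exact mul_ne_zero (by exact_mod_cast Real.pi_ne_zero) Complex.I_ne_zero

theorem rank_ZZ21 : Module.rank ℚ (ZZ 2 1) = 1 := by
  apply le_antisymm
  · apply rank_le_one (x := -((Real.log 2 : ℝ) : ℂ))
    rw [ZZ, Submodule.span_le]
    rintro x ⟨a, z, l, h1, h2, h3, h4⟩
    have ha := (h1 (a, z) List.mem_cons_self)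
    rw [wt_cons] at h3
    simp only at ha
    have : a = 1 := by omega
    subst this
    rw [lev_zero h1.tail (by omega)] at h4
    rcases sq1 ha.2 with h | h
    · exact absurd (by rw [h]) h2
    · rw [h] at h4
      rw [tendsto_nhds_unique h4 lim_m1]
      exact Submodule.mem_span_singleton_self _
  · have := rank_ZZ2 1 le_rfl
    simpa using this

theorem om_im_pos : 0 < om.im := by rw [om_im]; positivity

theorem im_step (k : ℕ) : (trunc [(2, om)] (6 * k)).im < (trunc [(2, om)] (6 * (k + 1))).im := by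
  have e : 6 * (k + 1) = 6 * k + 1 + 1 + 1 + 1 + 1 + 1 := by ring
  rw [e, trunc_succ, trunc_succ, trunc_succ, trunc_succ, trunc_succ, trunc_succ]
  simp only [trunc_nil, mul_one]
  have p6 : om ^ (6 * k) = 1 := by rw [pow_mul, om_six, one_pow]
  have p1 : om ^ (6 * k + 1) = om := by rw [pow_add, p6, one_mul, pow_one]
  have p2 : om ^ (6 * k + 1 + 1) = om - 1 := by rw [pow_succ, p1, ← om_sq]; ring
  have p3 : om ^ (6 * k + 1 + 1 + 1) = -1 := by rw [pow_succ, p2]; linear_combination om_sq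
  have p4 : om ^ (6 * k + 1 + 1 + 1 + 1) = -om := by rw [pow_succ, p3]; ring
  have p5 : om ^ (6 * k + 1 + 1 + 1 + 1 + 1) = -(om - 1) := by
    rw [pow_succ, p4]; linear_combination -om_sq
  have p6' : om ^ (6 * k + 1 + 1 + 1 + 1 + 1 + 1) = 1 := by
    rw [pow_succ, p5]; linear_combination -om_sq
  rw [p1, p2, p3, p4, p5, p6']
  have im_div : ∀ (z : ℂ) (m : ℕ), (z / (m : ℂ) ^ 2).im = z.im / (m : ℝ) ^ 2 := by
    intro z m
    have : z / (m : ℂ) ^ 2 = z / (((m : ℝ) ^ 2 : ℝ) : ℂ) := by push_cast; rfl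
    rw [this, Complex.div_ofReal_im]
  simp only [Complex.add_im, im_div, Complex.neg_im, Complex.sub_im, Complex.one_im]
  have hs := om_im_pos
  set s := om.im
  push_cast
  have h4 : s / ((6 : ℝ) * k + 1 + 1 + 1 + 1) ^ 2 < s / ((6 : ℝ) * k + 1) ^ 2 := by
    apply div_lt_div_of_pos_left hs (by positivity)
    have : (0 : ℝ) ≤ k := Nat.cast_nonneg k
    nlinarith
  have h5 : s / ((6 : ℝ) * k + 1 + 1 + 1 + 1 + 1) ^ 2 < s / ((6 : ℝ) * k + 1 + 1) ^ 2 := by
    apply div_lt_div_of_pos_left hs (by positivity)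
    have : (0 : ℝ) ≤ k := Nat.cast_nonneg k
    nlinarith
  have e1 : (s - 0) / ((6 : ℝ) * k + 1 + 1) ^ 2 = s / ((6 : ℝ) * k + 1 + 1) ^ 2 := by rw [sub_zero]
  have e2 : -(s - 0) / ((6 : ℝ) * k + 4 + 1) ^ 2 =
      -(s / ((6 : ℝ) * k + 1 + 1 + 1 + 1 + 1) ^ 2) := by
    have : (6 : ℝ) * k + 4 + 1 = (6 : ℝ) * k + 1 + 1 + 1 + 1 + 1 := by ring
    rw [sub_zero, neg_div, this]
  have e3 : -s / ((6 : ℝ) * k + 3 + 1) ^ 2 = -(s / ((6 : ℝ) * k + 1 + 1 + 1 + 1) ^ 2) := by
    have : (6 : ℝ) * k + 3 + 1 = (6 : ℝ) * k + 1 + 1 + 1 + 1 := by ring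
    rw [neg_div, this]
  rw [e1, e2, e3]
  have e4 : (-0 : ℝ) / ((6 : ℝ) * k + 2 + 1) ^ 2 = 0 := by simp
  have e5 : (0 : ℝ) / ((6 : ℝ) * k + 5 + 1) ^ 2 = 0 := by simp
  rw [e4, e5]
  linarith

theorem im_pos {x : ℂ} (h : Tendsto (trunc [(2, om)]) atTop (𝓝 x)) : 0 < x.im := by
  have hm : StrictMono fun k : ℕ => (trunc [(2, om)] (6 * k)).im :=
    strictMono_nat_of_lt_succ im_step
  have h0 : (trunc [(2, om)] (6 * 0)).im = 0 := by simp [trunc_zero]
  have h1 : 0 < (trunc [(2, om)] (6 * 1)).im := by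
    have := im_step 0
    rwa [h0] at this
  have h2 : Tendsto (fun k : ℕ => (trunc [(2, om)] (6 * k)).im) atTop (𝓝 x.im) := by
    have h3 : Tendsto (fun k : ℕ => 6 * k) atTop atTop :=
      tendsto_id.const_mul_atTop' (by norm_num)
    exact (Complex.continuous_im.tendsto x).comp (h.comp h3)
  refine lt_of_lt_of_le h1 (ge_of_tendsto h2 ?_)
  filter_upwards [eventually_ge_atTop 1] with k hk
  exact hm.monotone hk

theorem rank_CC2 : Module.rank ℚ (CC om 2) = 2 := by
  obtain ⟨x, hx⟩ := exists_lim 2 om [] (pos_val om_norm (a := 2) (s := []) (by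
    intro k hk; rw [List.mem_singleton] at hk; omega)) (fun h => om_ne (congrArg Prod.snd h))
  obtain ⟨y, hy⟩ := exists_lim 1 om _ (pos_val om_norm (a := 1) (s := [1]) (by
    intro k hk; simp at hk; omega)) (fun h => om_ne (congrArg Prod.snd h))
  apply le_antisymm
  · apply rank_le_two (x := x) (y := y)
    rw [CC, Submodule.span_le]
    rintro u ⟨a, s, h1, h2, h3⟩
    have ha := h1 a List.mem_cons_self
    rw [List.sum_cons] at h2
    rcases Nat.lt_or_ge a 2 with h | h
    · have : a = 1 := by omega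
      subst this
      rw [pos_one h1.tail (by omega)] at h3
      rw [tendsto_nhds_unique h3 hy]
      exact Submodule.subset_span (by simp)
    · have : a = 2 := by omega
      subst this
      rw [pos_zero h1.tail (by omega)] at h3
      rw [tendsto_nhds_unique h3 hx]
      exact Submodule.subset_span (by simp)
  · have h1 := pow_mem' ipi_mem 2 (by norm_num)
    have h2 : x ∈ CC om 2 := CC_one_mem (by norm_num) hx
    refine two_le_rank h1 h2 ?_
    rw [LinearIndependent.pair_iff]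
    intro s t hst
    have e : ((Real.pi : ℂ) * Complex.I) ^ 2 = ((-(Real.pi ^ 2) : ℝ) : ℂ) := by
      rw [mul_pow, Complex.I_sq]; push_cast; ring
    rw [e, Rat.smul_def, Rat.smul_def] at hst
    have him := congrArg Complex.im hst
    have hs : ((s : ℂ)) = ((s : ℝ) : ℂ) := by push_cast; rfl
    have ht : ((t : ℂ)) = ((t : ℝ) : ℂ) := by push_cast; rfl
    rw [hs, ht, Complex.add_im, Complex.im_ofReal_mul, Complex.im_ofReal_mul, Complex.ofReal_im,
      mul_zero, zero_add, Complex.zero_im] at him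
    have ht0 : t = 0 := by
      rcases mul_eq_zero.1 him with h | h
      · exact_mod_cast h
      · exact absurd h (im_pos hx).ne'
    subst ht0
    refine ⟨?_, rfl⟩
    rw [Rat.cast_zero, zero_mul, add_zero] at hst
    rcases mul_eq_zero.1 hst with h | h
    · exact_mod_cast h
    · exfalso
      have h3 : -(Real.pi ^ 2) = 0 := by exact_mod_cast h
      have := pow_pos Real.pi_pos 2
      linarith

theorem lim_2m1 : ∃ q : ℚ, Tendsto (trunc [(2, -1)]) atTop (𝓝 (((q * Real.pi ^ 2 : ℝ)) : ℂ)) := by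
  have h := hasSum_one_div_nat_pow_mul_cos (k := 1) one_ne_zero (x := 1 / 2) (by norm_num)
  refine ⟨-(Polynomial.bernoulli 2).eval (1 / 2 : ℚ) * (-1), ?_⟩
  have e : ((-1 : ℝ)) ^ (1 + 1) * (2 * Real.pi) ^ (2 * 1) / 2 / ((2 * 1).factorial : ℝ) *
      Polynomial.eval (1 / 2 : ℝ) (Polynomial.map (algebraMap ℚ ℝ) (Polynomial.bernoulli (2 * 1)))
      = ((-(Polynomial.bernoulli 2).eval (1 / 2 : ℚ) * (-1) : ℚ) : ℝ) * Real.pi ^ 2 := by
    have e1 : Polynomial.eval (1 / 2 : ℝ)
        (Polynomial.map (algebraMap ℚ ℝ) (Polynomial.bernoulli (2 * 1))) =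
        (((Polynomial.bernoulli 2).eval (1 / 2 : ℚ) : ℚ) : ℝ) := by
      have h6 : (1 / 2 : ℝ) = algebraMap ℚ ℝ (1 / 2) := by
        rw [eq_ratCast]; push_cast; rfl
      rw [h6, Polynomial.eval_map, Polynomial.eval₂_at_apply]
      rfl
    rw [e1]
    have : ((2 * 1).factorial : ℝ) = 2 := by norm_num [Nat.factorial]
    rw [this]
    push_cast
    ring
  rw [e] at h
  have h2 := (Complex.hasSum_ofReal.2 h).tendsto_sum_nat
  rw [← tendsto_add_atTop_iff_nat 1] at h2
  refine h2.congr fun M => ?_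
  rw [trunc_cons, Finset.sum_range_succ', sum_shift]
  simp only [trunc_nil, mul_one]
  have e0 : (((1 / ((0 : ℕ) : ℝ) ^ (2 * 1) * Real.cos (2 * Real.pi * (0 : ℕ) * (1 / 2)) : ℝ)) : ℂ) = 0 := by
    simp
  rw [e0, add_zero]
  refine Finset.sum_congr rfl fun i _ => ?_
  have e2 : 2 * Real.pi * ((i + 1 : ℕ) : ℝ) * (1 / 2) = ((i + 1 : ℕ) : ℝ) * Real.pi := by ring
  rw [e2, Real.cos_nat_mul_pi]
  push_cast
  ring

theorem LL_11 : LL [1] * LL [1] = LL [1, 1] + LL [1, 1] := by
  have h := rota (Sh 1) (Sh 1) (coeff_zero_Sh _) (coeff_zero_Sh _)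
  have e : In (Sh 1) = LL [1] := by rw [LL_one, LL_nil]
  rw [e, mul_comm (LL [1]) (Sh 1), Sh_mul, one_mul, ← LL_one] at h
  exact h

theorem lim_1m111 : Tendsto (trunc [(1, -1), (1, 1)]) atTop (𝓝 (((Real.log 2 ^ 2 / 2 : ℝ)) : ℂ)) := by
  obtain ⟨x, hx⟩ := exists_lim 1 (-1) _ (pos_val (z := -1) (by simp) (a := 1) (s := [1]) (by
    intro k hk; simp at hk; omega)) (fun h => by
      have := congrArg Prod.snd h
      norm_num at this)
  have h1 := hx.congr fun M => trunc_om 1 [1] (-1) M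
  have h2 := lim_m1.congr fun M => trunc_om 1 [] (-1) M
  rw [tendsto_add_atTop_iff_nat 1 (f := fun M => ∑ m ∈ range M, (co [1, 1] m : ℂ) * (-1) ^ m)] at h1
  rw [tendsto_add_atTop_iff_nat 1 (f := fun M => ∑ m ∈ range M, (co [1] m : ℂ) * (-1) ^ m)] at h2
  have h3 := cauchy_abel (fun m => (co [1] m : ℂ) * (-1) ^ m) (fun m => (co [1] m : ℂ) * (-1) ^ m)
    (fun m => (co [1, 1] m : ℂ) * (-1) ^ m + (co [1, 1] m : ℂ) * (-1) ^ m) (by
      intro n
      have h := congrArg (PowerSeries.coeff n) LL_11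
      rw [map_add, PowerSeries.coeff_mul, coeff_LL] at h
      simp only [coeff_LL] at h
      rw [← add_mul]
      have h' : ((co [1, 1] n : ℚ) : ℂ) + ((co [1, 1] n : ℚ) : ℂ) =
          ∑ p ∈ antidiagonal n, (co [1] p.1 : ℂ) * (co [1] p.2 : ℂ) := by
        exact_mod_cast h.symm
      rw [h', Finset.sum_mul]
      refine Finset.sum_congr rfl fun p hp => ?_
      rw [← mem_antidiagonal.1 hp, pow_add]
      ring) _ _ (x + x) h2 h2 ((h1.add h1).congr fun M => by rw [← Finset.sum_add_distrib])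
  have e : x = (((Real.log 2 ^ 2 / 2 : ℝ)) : ℂ) := by
    have : x = (x + x) / 2 := by ring
    rw [this, h3]
    push_cast
    ring
  rw [← e]
  exact hx

theorem lim_1m11m1 : Tendsto (trunc [(1, -1), (1, -1)]) atTop
    (𝓝 (((Real.log 2 ^ 2 / 2 - Real.pi ^ 2 / 12 : ℝ)) : ℂ)) := by
  have h := mul_trunc 1 1 (-1) (-1) [] []
  have e1 : trunc [] * trunc [(1, (-1 : ℂ))] = trunc [(1, -1)] := by funext M; simp [trunc_nil]
  have e2 : trunc [(1, (-1 : ℂ))] * trunc [] = trunc [(1, -1)] := by funext M; simp [trunc_nil]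
  have e3 : trunc [] * trunc [] = trunc [] := by funext M; simp [trunc_nil]
  rw [e1, e2, e3, Op_trunc, Op_trunc] at h
  have e4 : ((-1 : ℂ)) * (-1) = 1 := by ring
  rw [e4] at h
  have e5 : trunc [(1, -1), (1, -1)] =
      fun M => (trunc [(1, -1)] M * trunc [(1, -1)] M - trunc [(2, 1)] M) / 2 := by
    funext M
    have := congrFun h M
    simp only [Pi.mul_apply, Pi.add_apply] at this
    rw [this]
    ring
  rw [e5]
  have h2 := ((lim_m1.mul lim_m1).sub lim_21).div_const 2
  convert h2 using 2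
  push_cast
  ring

theorem rank_ZZ22 : Module.rank ℚ (ZZ 2 2) = 2 := by
  apply le_antisymm
  · apply rank_le_two (x := ((Real.pi ^ 2 : ℝ) : ℂ)) (y := ((Real.log 2 ^ 2 : ℝ) : ℂ))
    rw [ZZ, Submodule.span_le]
    have hmem : ∀ (p q : ℚ) (u : ℂ), u = (p : ℂ) * ((Real.pi ^ 2 : ℝ) : ℂ) +
        (q : ℂ) * ((Real.log 2 ^ 2 : ℝ) : ℂ) →
        u ∈ Submodule.span ℚ {((Real.pi ^ 2 : ℝ) : ℂ), ((Real.log 2 ^ 2 : ℝ) : ℂ)} := by
      intro p q u hu
      rw [Submodule.mem_span_pair]
      exact ⟨p, q, by rw [Rat.smul_def, Rat.smul_def, hu]⟩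
    rintro x ⟨a, z, l, h1, h2, h3, h4⟩
    have ha := (h1 (a, z) List.mem_cons_self)
    rw [wt_cons] at h3
    simp only at ha
    rcases Nat.lt_or_ge a 2 with h | h
    · have : a = 1 := by omega
      subst this
      have hz : z = -1 := by
        rcases sq1 ha.2 with h | h
        · exact absurd (by rw [h]) h2
        · exact h
      rw [hz] at h4
      rcases lev_one h1.tail (by omega) with hl | hl
      · rw [hl] at h4
        rw [tendsto_nhds_unique h4 lim_1m111]
        exact hmem 0 (1 / 2) _ (by push_cast; ring)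
      · rw [hl] at h4
        rw [tendsto_nhds_unique h4 lim_1m11m1]
        exact hmem (-1 / 12) (1 / 2) _ (by push_cast; ring)
    · have : a = 2 := by omega
      subst this
      rw [lev_zero h1.tail (by omega)] at h4
      rcases sq1 ha.2 with h | h
      · rw [h] at h4
        rw [tendsto_nhds_unique h4 lim_21]
        exact hmem (1 / 6) 0 _ (by push_cast; ring)
      · rw [h] at h4
        obtain ⟨q, hq⟩ := lim_2m1
        rw [tendsto_nhds_unique h4 hq]
        exact hmem q 0 _ (by push_cast; ring)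
  · have := rank_ZZ2 2 (by norm_num)
    simpa using this

end Pool.Agent.Run7.h317.CV
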