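import Pool.Agent.Run7.h317.CV.H

/-!
# Sums of the spaces of alternating values: windows of weights
-/

set_option autoImplicit false

namespace Pool.Agent.Run7.h317.CV

open Filter Topology Finset Polynomial

/-- a valuation ring of the real numbers which contains the rational numbers and does not contain a
given transcendental number -/
theorem exists_val (L : ℝ) (hL : Transcendental ℚ L) :
    ∃ V : ValuationSubring ℝ, (∀ q : ℚ, (q : ℝ) ∈ V) ∧ L ∉ V := by
  by_contra hcon
  push Not at hcon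
  have h1 : L ∈ (integralClosure (Subring.closure (Set.range fun q : ℚ => (q : ℝ))) ℝ).toSubring := by
    rw [← iInf_valuationSubring_superset, Subring.mem_iInf]
    rintro ⟨V, hV⟩
    exact hcon V fun q => hV ⟨q, rfl⟩
  have h2 : IsIntegral (Subring.closure (Set.range fun q : ℚ => (q : ℝ))) L := h1
  obtain ⟨p, hp, hp2⟩ := h2
  have h3 : Subring.closure (Set.range fun q : ℚ => (q : ℝ)) = (algebraMap ℚ ℝ).range := by
    apply le_antisymm
    · rw [Subring.closure_le]
      rintro x ⟨q, rfl⟩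
      exact ⟨q, rfl⟩
    · rintro x ⟨q, rfl⟩
      exact Subring.subset_closure ⟨q, rfl⟩
  refine hL ?_
  have h4 : IsIntegral (algebraMap ℚ ℝ).range L := by
    rw [← h3]
    exact ⟨p, hp, hp2⟩
  have h5 : IsIntegral ℚ L := by
    obtain ⟨p, hp, hp2⟩ := h4
    have hlift : p ∈ Polynomial.lifts (algebraMap ℚ ℝ).rangeRestrict := by
      rw [Polynomial.lifts_iff_coeff_lifts]
      intro n
      obtain ⟨q, hq⟩ := (p.coeff n).2
      exact ⟨q, Subtype.ext hq⟩
    obtain ⟨r, hr, _, hr2⟩ := Polynomial.lifts_and_degree_eq_and_monic hlift hp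
    refine ⟨r, hr2, ?_⟩
    rw [← hr, Polynomial.eval₂_map] at hp2
    exact hp2
  exact h5.isAlgebraic

/-- the span of the monomials `L^a x^b` of weight `a + 2b = n` -/
noncomputable def BB (L x : ℝ) (n : ℕ) : Submodule ℚ ℝ :=
  Submodule.span ℚ {y | ∃ a b, a + 2 * b = n ∧ y = L ^ a * x ^ b}

instance (L x : ℝ) (n : ℕ) : Module.Finite ℚ (BB L x n) := by
  have hfin : {y : ℝ | ∃ a b, a + 2 * b = n ∧ y = L ^ a * x ^ b}.Finite := by
    refine Set.Finite.subset (Finset.finite_toSet
      ((Finset.range (n + 1) ×ˢ Finset.range (n + 1)).image fun p => L ^ p.1 * x ^ p.2)) ?_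
    rintro y ⟨a, b, h, rfl⟩
    rw [Finset.mem_coe, Finset.mem_image]
    exact ⟨(a, b), by rw [Finset.mem_product, Finset.mem_range, Finset.mem_range]; omega, rfl⟩
  exact Module.Finite.span_of_finite ℚ hfin

/-- sums of these spaces -/
noncomputable def SS (L x : ℝ) (N M : ℕ) : Submodule ℚ ℝ := ⨆ n ∈ Finset.Icc N M, BB L x n

theorem SS_fin (L x : ℝ) (N M : ℕ) : Module.Finite ℚ (SS L x N M) := by
  rw [SS, ← Finset.sup_eq_iSup]
  exact Submodule.finite_finset_sup _ _

/-- the elements of valuation at most `c` -/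
noncomputable def Bd (V : ValuationSubring ℝ) (hV : ∀ q : ℚ, (q : ℝ) ∈ V) (c : V.ValueGroup) :
    Submodule ℚ ℝ where
  carrier := {y | V.valuation y ≤ c}
  zero_mem' := by simp
  add_mem' := fun {a b} ha hb => (V.valuation.map_add a b).trans (max_le ha hb)
  smul_mem' := fun q a ha => by
    change V.valuation (q • a) ≤ c
    rw [Rat.smul_def, map_mul]
    have h1 : V.valuation (q : ℝ) ≤ 1 := (V.valuation_le_one_iff _).2 (hV q)
    calc V.valuation (q : ℝ) * V.valuation a ≤ 1 * V.valuation a := mul_le_mul_left h1 _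
      _ = V.valuation a := one_mul _
      _ ≤ c := ha

/-- in every further weight there is something new -/
theorem new_elt (L x : ℝ) (hL : Transcendental ℚ L) (N M : ℕ) :
    ∃ u ∈ BB L x (M + 1), u ∉ SS L x N M := by
  obtain ⟨V, hV, hLV⟩ := exists_val L hL
  have hL0 : L ≠ 0 := fun h => hL (by rw [h]; exact isAlgebraic_zero)
  set v := V.valuation with hv
  have hvL : 1 < v L := by
    rw [hv]
    exact not_le.1 fun h => hLV ((V.valuation_le_one_iff _).1 h)
  have hvL0 : v L ≠ 0 := (v.ne_zero_iff).2 hL0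
  set t : ℝ := x / L ^ 2 with ht
  have hx : ∀ a b : ℕ, v (L ^ a * x ^ b) = v L ^ (a + 2 * b) * v t ^ b := by
    intro a b
    rw [← map_pow, ← map_pow, ← map_mul]
    congr 1
    rw [ht, pow_add, pow_mul, div_pow, mul_assoc, mul_div_cancel₀]
    exact pow_ne_zero _ (pow_ne_zero _ hL0)
  set m := max 1 (v t) with hm
  have hm1 : 1 ≤ m := le_max_left _ _
  have hle : SS L x N M ≤ Bd V hV (v L ^ M * m ^ (M / 2)) := by
    rw [SS]
    refine iSup₂_le fun n hn => ?_
    rw [Finset.mem_Icc] at hn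
    rw [BB, Submodule.span_le]
    rintro y ⟨a, b, hab, rfl⟩
    change V.valuation (L ^ a * x ^ b) ≤ _
    rw [← hv, hx, hab]
    refine mul_le_mul' (pow_le_pow_right₀ hvL.le hn.2) ?_
    calc v t ^ b ≤ m ^ b := pow_le_pow_left₀ zero_le' (le_max_right _ _) _
      _ ≤ m ^ (M / 2) := pow_le_pow_right₀ hm1 (by omega)
  have hm0 : m ≠ 0 := ne_of_gt (lt_of_lt_of_le one_pos hm1)
  have hlt : v L ^ M * m ^ (M / 2) < v L ^ (M + 1) * m ^ ((M + 1) / 2) := by
    calc v L ^ M * m ^ (M / 2) < v L ^ (M + 1) * m ^ (M / 2) := by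
          refine mul_lt_mul_of_pos_right (pow_lt_pow_right₀ hvL (Nat.lt_succ_self M)) ?_
          exact zero_lt_iff.2 (pow_ne_zero _ hm0)
      _ ≤ v L ^ (M + 1) * m ^ ((M + 1) / 2) :=
          mul_le_mul' le_rfl (pow_le_pow_right₀ hm1 (by omega))
  rcases le_total (v t) 1 with h | h
  · have hm' : m = 1 := max_eq_left h
    refine ⟨L ^ (M + 1), Submodule.subset_span ⟨M + 1, 0, by ring, by rw [pow_zero, mul_one]⟩, ?_⟩
    intro hmem
    have h1 : v (L ^ (M + 1)) ≤ v L ^ M * m ^ (M / 2) := hle hmem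
    rw [hm', one_pow, one_pow, mul_one, mul_one] at hlt
    rw [hm', one_pow, mul_one, map_pow] at h1
    exact absurd h1 (not_le.2 hlt)
  · have hm' : m = v t := max_eq_right h
    refine ⟨L ^ (M + 1 - 2 * ((M + 1) / 2)) * x ^ ((M + 1) / 2),
      Submodule.subset_span ⟨M + 1 - 2 * ((M + 1) / 2), (M + 1) / 2, by omega, rfl⟩, ?_⟩
    intro hmem
    have h1 : v (L ^ (M + 1 - 2 * ((M + 1) / 2)) * x ^ ((M + 1) / 2)) ≤ v L ^ M * m ^ (M / 2) :=
      hle hmem
    rw [hx, Nat.sub_add_cancel (by omega), ← hm'] at h1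
    exact absurd h1 (not_le.2 hlt)

theorem step (L x : ℝ) (hL : Transcendental ℚ L) (N M : ℕ) (hNM : N ≤ M + 1) :
    Module.finrank ℚ (SS L x N M) + 1 ≤ Module.finrank ℚ (SS L x N (M + 1)) := by
  obtain ⟨u, hu, hu2⟩ := new_elt L x hL N M
  have h1 : SS L x N M ≤ SS L x N (M + 1) := by
    refine iSup₂_le fun n hn => ?_
    refine le_iSup₂_of_le n ?_ le_rfl
    rw [Finset.mem_Icc] at hn ⊢
    omega
  have h2 : u ∈ SS L x N (M + 1) := by
    have : BB L x (M + 1) ≤ SS L x N (M + 1) :=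
      le_iSup₂_of_le (M + 1) (Finset.mem_Icc.2 ⟨hNM, le_rfl⟩) le_rfl
    exact this hu
  have h3 : SS L x N M < SS L x N (M + 1) := lt_of_le_of_ne h1 fun h => hu2 (h ▸ h2)
  have := SS_fin L x N (M + 1)
  exact Submodule.finrank_lt_finrank_of_lt h3

/-- the dimension in one weight -/
theorem one_weight (L x : ℝ) (hL : L ≠ 0) (ht : Transcendental ℚ (x / L ^ 2)) (w : ℕ) :
    w / 2 + 1 ≤ Module.finrank ℚ (BB L x w) := by
  set t : ℝ := x / L ^ 2 with htt
  let v : Fin (w / 2 + 1) → BB L x w := fun j =>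
    ⟨L ^ (w - 2 * j) * x ^ (j : ℕ), Submodule.subset_span ⟨w - 2 * j, j, by have := j.2; omega, rfl⟩⟩
  have hv : ∀ j, ((v j : BB L x w) : ℝ) = L ^ w * t ^ (j : ℕ) := by
    intro j
    have hj := j.2
    have e : w - 2 * (j : ℕ) + 2 * j = w := by omega
    change L ^ (w - 2 * (j : ℕ)) * x ^ (j : ℕ) = _
    have h1 : L ^ w = L ^ (w - 2 * (j : ℕ)) * (L ^ 2) ^ (j : ℕ) := by
      rw [← pow_mul, ← pow_add, e]
    rw [h1, htt, div_pow, mul_assoc, mul_div_cancel₀]
    exact pow_ne_zero _ (pow_ne_zero _ hL)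
  have hli : LinearIndependent ℚ v := by
    rw [Fintype.linearIndependent_iff]
    intro g hg
    have h1 : ∑ j, (g j : ℝ) * (L ^ w * t ^ (j : ℕ)) = 0 := by
      have h2 := congrArg Subtype.val hg
      rw [Submodule.coe_zero, AddSubmonoidClass.coe_finset_sum] at h2
      rw [← h2]
      refine Finset.sum_congr rfl fun j _ => ?_
      rw [Submodule.coe_smul, hv, Rat.smul_def]
    have h3 : L ^ w * (∑ j, (g j : ℝ) * t ^ (j : ℕ)) = 0 := by
      rw [← h1, Finset.mul_sum]
      refine Finset.sum_congr rfl fun j _ => ?_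
      ring
    have h4 : ∑ j, (g j : ℝ) * t ^ (j : ℕ) = 0 := by
      rcases mul_eq_zero.1 h3 with h | h
      · exact absurd h (pow_ne_zero _ hL)
      · exact h
    let P : ℚ[X] := ∑ j : Fin (w / 2 + 1), C (g j) * X ^ (j : ℕ)
    have hP : aeval t P = 0 := by
      rw [map_sum, ← h4]
      refine Finset.sum_congr rfl fun j _ => ?_
      rw [map_mul, aeval_C, map_pow, aeval_X]
      rfl
    have hP0 : P = 0 := (transcendental_iff.1 ht) P hP
    intro i
    have h5 : P.coeff i = g i := by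
      rw [finset_sum_coeff]
      simp only [coeff_C_mul, coeff_X_pow]
      rw [Finset.sum_eq_single i]
      · simp
      · intro j _ hj
        rw [if_neg (fun h => hj (Fin.ext h.symm)), mul_zero]
      · intro h; exact absurd (Finset.mem_univ i) h
    rw [← h5, hP0, coeff_zero]
  have := hli.fintype_card_le_finrank
  rwa [Fintype.card_fin] at this

theorem window_real (L x : ℝ) (hL : Transcendental ℚ L) (ht : Transcendental ℚ (x / L ^ 2))
    (N k : ℕ) : N / 2 + 1 + k ≤ Module.finrank ℚ (SS L x N (N + k)) := by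
  induction k with
  | zero =>
    have hL0 : L ≠ 0 := fun h => hL (by rw [h]; exact isAlgebraic_zero)
    have e : SS L x N (N + 0) = BB L x N := by
      rw [SS, add_zero, Finset.Icc_self]
      simp
    rw [e]
    exact one_weight L x hL0 ht N
  | succ k ih =>
    have := step L x hL N (N + k) (by omega)
    have e : N + (k + 1) = N + k + 1 := by ring
    rw [e]
    omega

theorem eR_inj : Function.Injective eR := fun a b h => by
  rw [eR_apply, eR_apply] at h
  exact_mod_cast h

theorem log2_tr : Transcendental ℚ (Real.log 2) := by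
  intro h
  have hL : Real.log 2 ≠ 0 := (Real.log_pos (by norm_num)).ne'
  have h2 : IsAlgebraic ℚ (((Real.log 2 : ℝ)) : ℂ) := h.algebraMap (A := ℂ)
  have hli : LinearIndependent ℚ (fun _ : Fin 1 => ((Real.log 2 : ℝ) : ℂ)) := by
    rw [Fintype.linearIndependent_iff]
    intro g hg i
    rw [Fin.sum_univ_one] at hg
    have h2 : i = 0 := Subsingleton.elim _ _
    rw [h2]
    exact (smul_eq_zero.1 hg).resolve_right (by exact_mod_cast hL)
  have hb := Pool.Agent.H297R2.baker_inhom (fun _ : Fin 1 => ((Real.log 2 : ℝ) : ℂ))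
    (by
      intro i
      rw [← Complex.ofReal_exp, Real.exp_log (by norm_num)]
      exact_mod_cast isAlgebraic_nat 2) hli (-((Real.log 2 : ℝ) : ℂ)) h2.neg
    (fun _ => 1) (fun _ => isAlgebraic_one) (by
      rw [Fin.sum_univ_one]
      ring)
  have := hb.2 0
  exact one_ne_zero this

/-- **Windows of weights, level two.** -/
theorem window_ZZ2 {N M : ℕ} (hN : 1 ≤ N) (hNM : N ≤ M) :
    ((N / 2 + 1 + (M - N) : ℕ) : Cardinal) ≤ Module.rank ℚ ↥(⨆ n ∈ Finset.Icc N M, ZZ 2 n) := by
  obtain ⟨k, rfl⟩ : ∃ k, M = N + k := ⟨M - N, by omega⟩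
  have h1 := window_real (Real.log 2) (Real.pi ^ 2) log2_tr ratio_tr N k
  have h2 : (SS (Real.log 2) (Real.pi ^ 2) N (N + k)).map eR ≤ ⨆ n ∈ Finset.Icc N (N + k), ZZ 2 n := by
    rw [Submodule.map_le_iff_le_comap, SS]
    refine iSup₂_le fun n hn => ?_
    rw [BB, Submodule.span_le]
    rintro y ⟨a, b, hab, rfl⟩
    have hn' := Finset.mem_Icc.1 hn
    have h3 := mon2 a b (by omega)
    rw [hab] at h3
    have h4 : ZZ 2 n ≤ ⨆ n ∈ Finset.Icc N (N + k), ZZ 2 n := le_iSup₂_of_le n hn le_rfl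
    rw [SetLike.mem_coe, Submodule.mem_comap, eR_apply]
    push_cast
    push_cast at h3
    exact h4 h3
  have h3 := Submodule.rank_mono h2
  refine le_trans ?_ h3
  have h4 : Module.rank ℚ ((SS (Real.log 2) (Real.pi ^ 2) N (N + k)).map eR) =
      Module.rank ℚ (SS (Real.log 2) (Real.pi ^ 2) N (N + k)) :=
    (Submodule.equivMapOfInjective eR eR_inj _).rank_eq.symm
  rw [h4]
  have := SS_fin (Real.log 2) (Real.pi ^ 2) N (N + k)
  rw [← Module.finrank_eq_rank]
  have e : N + k - N = k := by omega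
  rw [e]
  exact_mod_cast h1

end Pool.Agent.Run7.h317.CV
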