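import Pool.Agent.Run7.h317.CV.E
import Pool.Agent.W256.Growth
import Pool.Agent.W254.HP.Prod
import Pool.Agent.H297R2.InBakerThm

/-!
# Cyclotomic multiple zeta values of any level: dimensions from the logarithms
-/

set_option autoImplicit false

namespace Pool.Agent.Run7.h317.CV

open Filter Topology Finset Module
open Pool.Agent.H301R2.SSE (QB mem_QB Lt Lt_one Lt_log)

theorem half_mul' (v : ℕ) : v / 2 * v = v ^ 2 / 4 + v / 2 * (v / 2) := by
  rcases Nat.even_or_odd' v with ⟨k, rfl | rfl⟩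
  · have h1 : 2 * k / 2 = k := by omega
    have h2 : (2 * k) ^ 2 / 4 = k * k := by
      rw [show (2 * k) ^ 2 = 4 * (k * k) by ring]; omega
    rw [h1, h2]; ring
  · have h1 : (2 * k + 1) / 2 = k := by omega
    have h2 : (2 * k + 1) ^ 2 / 4 = k * k + k := by
      rw [show (2 * k + 1) ^ 2 = 4 * (k * k + k) + 1 by ring]; omega
    rw [h1, h2]; ring

/-- multiplication by a space of linear forms in logarithms -/
theorem grow (X V : Submodule QB ℂ) [FiniteDimensional QB X] [FiniteDimensional QB V]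
    (hV : V ≤ Lt) (hV0 : V ≠ ⊥) (hs : finrank QB V / 2 ≤ finrank QB X) :
    finrank QB X + finrank QB V ^ 2 / 4 ≤ finrank QB (X * V : Submodule QB ℂ) := by
  have hac : IsAlgClosed QB := (algebraicClosure.isAlgClosure ℚ ℂ).isAlgClosed
  have key := Pool.Agent.W256.growth_of X V hV0 (finrank QB V / 2) hs (by
    intro Y hYX hYs
    have : FiniteDimensional QB Y := Submodule.finiteDimensional_of_le hYX
    have : FiniteDimensional QB (Y * V : Submodule QB ℂ) :=
      Module.Finite.iff_fg.mpr (Submodule.FG.mul (Module.Finite.iff_fg.mp inferInstance)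
        (Module.Finite.iff_fg.mp inferInstance))
    have h := Pool.Agent.W254.HP.product_le Y V (Y * V) hV
      (fun x hx w hw => Submodule.mul_mem_mul hx hw)
    rwa [hYs] at h)
  have h3 := half_mul' (finrank QB V)
  omega

theorem fin_mul (X V : Submodule QB ℂ) [FiniteDimensional QB X] [FiniteDimensional QB V] :
    FiniteDimensional QB (X * V : Submodule QB ℂ) :=
  Module.Finite.iff_fg.mpr (Submodule.FG.mul (Module.Finite.iff_fg.mp inferInstance)
    (Module.Finite.iff_fg.mp inferInstance))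

/-- powers and sums of powers: the numbers of dimensions -/
theorem grow_pow (V V' : Submodule QB ℂ) [FiniteDimensional QB V] [FiniteDimensional QB V']
    (hV : V ≤ Lt) (hV' : V' ≤ Lt) (r : ℕ) (hr : 1 ≤ r) (h1 : finrank QB V = r)
    (h2 : finrank QB V' = r + 1) (a k : ℕ) :
    ∃ A : Submodule QB ℂ, A = V ^ (a + 1) * V' ^ k ∧ FiniteDimensional QB A ∧
      r + a * (r ^ 2 / 4) + k * ((r + 1) ^ 2 / 4) ≤ finrank QB A := by
  have hV0 : V ≠ ⊥ := by
    rintro rfl
    rw [finrank_bot] at h1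
    omega
  have hV0' : V' ≠ ⊥ := by
    rintro rfl
    rw [finrank_bot] at h2
    omega
  have hA : ∀ a : ℕ, FiniteDimensional QB (V ^ (a + 1) : Submodule QB ℂ) ∧
      r + a * (r ^ 2 / 4) ≤ finrank QB (V ^ (a + 1) : Submodule QB ℂ) := by
    intro a
    induction a with
    | zero =>
      rw [zero_add, pow_one]
      exact ⟨inferInstance, by omega⟩
    | succ a ih =>
      obtain ⟨i1, i2⟩ := ih
      rw [pow_succ]
      refine ⟨fin_mul _ _, ?_⟩
      have := grow (V ^ (a + 1)) V hV hV0 (by rw [h1]; omega)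
      rw [h1] at this
      calc r + (a + 1) * (r ^ 2 / 4) = r + a * (r ^ 2 / 4) + r ^ 2 / 4 := by ring
        _ ≤ _ := by omega
  obtain ⟨j1, j2⟩ := hA a
  refine ⟨_, rfl, ?_⟩
  induction k with
  | zero =>
    rw [pow_zero, mul_one]
    exact ⟨j1, by simpa using j2⟩
  | succ k ih =>
    obtain ⟨i1, i2⟩ := ih
    rw [pow_succ V' k, ← mul_assoc]
    refine ⟨fin_mul _ _, ?_⟩
    have := grow (V ^ (a + 1) * V' ^ k) V' hV' hV0' (by
      rw [h2]
      have : r ≤ r + a * (r ^ 2 / 4) + k * ((r + 1) ^ 2 / 4) := by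
        rw [add_assoc]; exact Nat.le_add_right _ _
      omega)
    rw [h2] at this
    calc r + a * (r ^ 2 / 4) + (k + 1) * ((r + 1) ^ 2 / 4) =
        r + a * (r ^ 2 / 4) + k * ((r + 1) ^ 2 / 4) + (r + 1) ^ 2 / 4 := by ring
      _ ≤ _ := by omega

/-- comparison of the ranks over the rational and over the algebraic numbers -/
theorem rank_scalar (W : Submodule ℚ ℂ) (A : Submodule QB ℂ) [FiniteDimensional QB A]
    (hA : A ≤ Submodule.span QB (W : Set ℂ)) : ((finrank QB A : ℕ) : Cardinal) ≤ Module.rank ℚ W := by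
  obtain ⟨b, hbW, hbs, hbli⟩ := exists_linearIndependent QB (W : Set ℂ)
  have h1 : Module.rank QB A ≤ Cardinal.mk b := by
    rw [← rank_span_set hbli, hbs]
    exact Submodule.rank_mono hA
  rw [Module.finrank_eq_rank]
  refine h1.trans ?_
  have h2 : LinearIndependent ℚ (Subtype.val : b → ℂ) := by
    refine hbli.restrict_scalars ?_
    intro p q h
    simpa using h
  let v : b → W := fun x => ⟨x.1, hbW x.2⟩
  have h3 : LinearIndependent ℚ v := by
    apply LinearIndependent.of_comp W.subtype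
    exact h2
  exact h3.cardinal_le_rank

/-- the numbers with algebraic exponential -/
noncomputable def EA : Submodule ℚ ℂ where
  carrier := {z | IsAlgebraic ℚ (Complex.exp z)}
  zero_mem' := by
    change IsAlgebraic ℚ (Complex.exp 0)
    rw [Complex.exp_zero]
    exact isAlgebraic_one
  add_mem' := fun {a b} ha hb => by
    change IsAlgebraic ℚ (Complex.exp (a + b))
    rw [Complex.exp_add]
    exact ha.mul hb
  smul_mem' := fun q z hz => by
    change IsAlgebraic ℚ (Complex.exp (q • z))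
    rw [Rat.smul_def]
    have hpos : 0 < q.den := q.den_pos
    apply IsAlgebraic.of_pow hpos
    rw [← Complex.exp_nat_mul]
    have h1 : (q.den : ℂ) * (q * z) = (q.num : ℂ) * z := by
      have h2 : (q : ℂ) = (q.num : ℂ) / (q.den : ℂ) := by
        exact_mod_cast (Rat.num_div_den q).symm
      rw [h2]
      have h3 : (q.den : ℂ) ≠ 0 := by exact_mod_cast hpos.ne'
      field_simp
    rw [h1, Complex.exp_int_mul]
    have hz' : IsAlgebraic ℚ (Complex.exp z) := hz
    rcases q.num.eq_nat_or_neg with ⟨n, hn | hn⟩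
    · rw [hn, zpow_natCast]
      exact hz'.pow n
    · rw [hn, zpow_neg, zpow_natCast]
      exact (hz'.pow n).inv

theorem lev_zero' {N : ℕ} {l : List (ℕ × ℂ)} (h : Lev N l) (h0 : wt l = 0) : l = [] := by
  rcases l with _ | ⟨⟨b, z⟩, l⟩
  · rfl
  · have := (h (b, z) List.mem_cons_self).1
    rw [wt_cons] at h0
    simp only at this
    omega

theorem gen_one {N : ℕ} (hN : N ≠ 0) {x : ℂ}
    (hx : x ∈ {x | ∃ a z l, Lev N ((a, z) :: l) ∧ (a, z) ≠ ((1, 1) : ℕ × ℂ) ∧
      wt ((a, z) :: l) = 1 ∧ Tendsto (trunc ((a, z) :: l)) atTop (𝓝 x)}) :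
    ∃ z : ℂ, z ^ N = 1 ∧ z ≠ 1 ∧ x = -Complex.log (1 - z) := by
  obtain ⟨a, z, l, h1, h2, h3, h4⟩ := hx
  have ha := h1 (a, z) List.mem_cons_self
  rw [wt_cons] at h3
  simp only at ha
  have : a = 1 := by omega
  subst this
  rw [lev_zero' h1.tail (by omega)] at h4
  have hz1 : z ≠ 1 := fun h => h2 (by rw [h])
  exact ⟨z, ha.2, hz1, tendsto_nhds_unique h4
    (lim_one z (Complex.norm_eq_one_of_pow_eq_one ha.2 hN) hz1)⟩

theorem ZZ_le_EA {N : ℕ} (hN : N ≠ 0) : ZZ N 1 ≤ EA := by
  rw [ZZ, Submodule.span_le]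
  intro x hx
  obtain ⟨z, hz, hz1, rfl⟩ := gen_one hN hx
  change IsAlgebraic ℚ (Complex.exp (-Complex.log (1 - z)))
  rw [Complex.exp_neg, Complex.exp_log (sub_ne_zero.2 hz1.symm)]
  apply IsAlgebraic.inv
  apply isAlgebraic_one.sub
  apply IsAlgebraic.of_pow (Nat.pos_of_ne_zero hN)
  rw [hz]
  exact isAlgebraic_one

instance fin_ZZ1 {N : ℕ} [NeZero N] : Module.Finite ℚ (ZZ N 1) := by
  have hfin : {x | ∃ a z l, Lev N ((a, z) :: l) ∧ (a, z) ≠ ((1, 1) : ℕ × ℂ) ∧
      wt ((a, z) :: l) = 1 ∧ Tendsto (trunc ((a, z) :: l)) atTop (𝓝 x)}.Finite := by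
    refine Set.Finite.subset (Finset.finite_toSet
      ((Polynomial.nthRootsFinset N (1 : ℂ)).image fun z => -Complex.log (1 - z))) ?_
    intro x hx
    obtain ⟨z, hz, hz1, rfl⟩ := gen_one (NeZero.ne N) hx
    rw [Finset.mem_coe, Finset.mem_image]
    exact ⟨z, (Polynomial.mem_nthRootsFinset (Nat.pos_of_ne_zero (NeZero.ne N)) _).2 hz, rfl⟩
  exact Module.Finite.span_of_finite ℚ hfin

/-- logarithms which are linearly independent over the rationals are, with `1`, linearly
independent over the algebraic numbers -/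
theorem li_cons' {n : ℕ} (l : Fin n → ℂ) (halg : ∀ j, IsAlgebraic ℚ (Complex.exp (l j)))
    (hli : LinearIndependent ℚ l) :
    LinearIndependent QB (Fin.cons 1 l : Fin (n + 1) → ℂ) := by
  rw [Fintype.linearIndependent_iff]
  intro g hg
  rw [Fin.sum_univ_succ] at hg
  simp only [Fin.cons_zero, Fin.cons_succ] at hg
  have h1 : (g 0 : ℂ) + ∑ i : Fin n, (g i.succ : ℂ) * l i = 0 := by
    rw [← hg, Algebra.smul_def, mul_one]
    congr 1
  obtain ⟨h2, h3⟩ := Pool.Agent.H297R2.baker_inhom l halg hli (g 0) (mem_QB.1 (g 0).2)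
    (fun i => (g i.succ : ℂ)) (fun i => mem_QB.1 (g i.succ).2) h1
  intro i
  refine Fin.cases ?_ (fun i => ?_) i
  · exact_mod_cast h2
  · exact_mod_cast h3 i

/-- the union of the spaces of a window of weights -/
def UU (N a b : ℕ) : Set ℂ := {x | ∃ n ∈ Finset.Icc a b, x ∈ ZZ N n}

theorem UU_le (N a b : ℕ) : Submodule.span QB (UU N a b) ≤
    Submodule.span QB ((⨆ n ∈ Finset.Icc a b, ZZ N n : Submodule ℚ ℂ) : Set ℂ) := by
  refine Submodule.span_mono ?_
  rintro x ⟨n, hn, hx⟩
  have : ZZ N n ≤ ⨆ n ∈ Finset.Icc a b, ZZ N n := le_iSup₂_of_le n hn le_rfl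
  exact this hx

theorem UU_mono (N a : ℕ) {b c : ℕ} (h : b ≤ c) : Submodule.span QB (UU N a b) ≤
    Submodule.span QB (UU N a c) := by
  refine Submodule.span_mono ?_
  rintro x ⟨n, hn, hx⟩
  rw [Finset.mem_Icc] at hn
  exact ⟨n, Finset.mem_Icc.2 ⟨hn.1, hn.2.trans h⟩, hx⟩

theorem mul_UU {N a b : ℕ} (hN : N ≠ 0) {e x : ℂ} (he : e ∈ ZZ N 1)
    (hx : x ∈ Submodule.span QB (UU N a b)) : x * e ∈ Submodule.span QB (UU N (a + 1) (b + 1)) := by
  induction hx using Submodule.span_induction with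
  | mem x hx =>
    obtain ⟨n, hn, hx⟩ := hx
    rw [Finset.mem_Icc] at hn
    exact Submodule.subset_span ⟨n + 1, Finset.mem_Icc.2 ⟨by omega, by omega⟩, mul_ZZ hN hx he⟩
  | zero => rw [zero_mul]; exact zero_mem _
  | add x z _ _ h1 h2 => rw [add_mul]; exact add_mem h1 h2
  | smul c x _ h => rw [smul_mul_assoc]; exact Submodule.smul_mem _ _ h

theorem UU_sub (N a b : ℕ) : Submodule.span QB (UU N (a + 1) b) ≤ Submodule.span QB (UU N a b) := by
  refine Submodule.span_mono ?_
  rintro x ⟨n, hn, hx⟩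
  rw [Finset.mem_Icc] at hn
  exact ⟨n, Finset.mem_Icc.2 ⟨by omega, hn.2⟩, hx⟩

/-- **All levels: windows of weights.** -/
theorem level_window {N : ℕ} (hN : N ≠ 0) (r : ℕ) (hr : 1 ≤ r)
    (hrk : (r : Cardinal) ≤ Module.rank ℚ (ZZ N 1)) (a k : ℕ) :
    ((r + a * (r ^ 2 / 4) + k * ((r + 1) ^ 2 / 4) : ℕ) : Cardinal) ≤
      Module.rank ℚ ↥(⨆ n ∈ Finset.Icc (a + 1) (a + 1 + k), ZZ N n) := by
  obtain ⟨e, he⟩ : ∃ e : Fin r → ZZ N 1, LinearIndependent ℚ e := by
    rw [← Cardinal.mk_fin r] at hrk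
    obtain ⟨e, he⟩ := exists_linearIndependent_of_le_rank (n := r) (by simpa using hrk)
    exact ⟨e, he⟩
  set f : Fin r → ℂ := fun i => (e i : ℂ) with hf
  have hfli : LinearIndependent ℚ f := he.map' (ZZ N 1).subtype (ZZ N 1).ker_subtype
  have halg : ∀ i, IsAlgebraic ℚ (Complex.exp (f i)) := fun i => ZZ_le_EA hN (e i).2
  have hcons := li_cons' f halg hfli
  have hQ : LinearIndependent QB f := by
    have := hcons.comp Fin.succ (Fin.succ_injective r)
    simpa [Function.comp_def] using this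
  let V : Submodule QB ℂ := Submodule.span QB (Set.range f)
  let V' : Submodule QB ℂ := Submodule.span QB (Set.range (Fin.cons 1 f : Fin (r + 1) → ℂ))
  have i1 : FiniteDimensional QB V := FiniteDimensional.span_of_finite QB (Set.finite_range f)
  have i2 : FiniteDimensional QB V' := FiniteDimensional.span_of_finite QB (Set.finite_range _)
  have d1 : finrank QB V = r := by
    rw [finrank_span_eq_card hQ, Fintype.card_fin]
  have d2 : finrank QB V' = r + 1 := by
    rw [finrank_span_eq_card hcons, Fintype.card_fin]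
  have l1 : V ≤ Lt := by
    rw [Submodule.span_le]
    rintro x ⟨i, rfl⟩
    exact Lt_log (halg i)
  have l2 : V' ≤ Lt := by
    rw [Submodule.span_le]
    rintro x ⟨i, rfl⟩
    refine Fin.cases ?_ (fun i => ?_) i
    · rw [Fin.cons_zero]; exact Lt_one
    · rw [Fin.cons_succ]; exact Lt_log (halg i)
  obtain ⟨A, hA, i3, hd⟩ := grow_pow V V' l1 l2 r hr d1 d2 a k
  have m1 : ∀ (c b : ℕ) (X : Submodule QB ℂ), X ≤ Submodule.span QB (UU N c b) →
      X * V ≤ Submodule.span QB (UU N (c + 1) (b + 1)) := by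
    intro c b X hX
    rw [Submodule.mul_le]
    intro x hx y hy
    induction hy using Submodule.span_induction with
    | mem y hy =>
      obtain ⟨i, rfl⟩ := hy
      exact mul_UU hN (e i).2 (hX hx)
    | zero => rw [mul_zero]; exact zero_mem _
    | add y z _ _ h1 h2 => rw [mul_add]; exact add_mem h1 h2
    | smul c y _ h => rw [mul_smul_comm]; exact Submodule.smul_mem _ _ h
  have m2 : ∀ (c b : ℕ) (X : Submodule QB ℂ), X ≤ Submodule.span QB (UU N c b) →
      X * V' ≤ Submodule.span QB (UU N c (b + 1)) := by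
    intro c b X hX
    rw [Submodule.mul_le]
    intro x hx y hy
    induction hy using Submodule.span_induction with
    | mem y hy =>
      obtain ⟨i, rfl⟩ := hy
      refine Fin.cases ?_ (fun i => ?_) i
      · rw [Fin.cons_zero, mul_one]
        exact UU_mono N c (Nat.le_succ b) (hX hx)
      · rw [Fin.cons_succ]
        exact UU_sub N c (b + 1) (mul_UU hN (e i).2 (hX hx))
    | zero => rw [mul_zero]; exact zero_mem _
    | add y z _ _ h1 h2 => rw [mul_add]; exact add_mem h1 h2
    | smul c y _ h => rw [mul_smul_comm]; exact Submodule.smul_mem _ _ h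
  have p1 : ∀ a : ℕ, V ^ (a + 1) ≤ Submodule.span QB (UU N (a + 1) (a + 1)) := by
    intro a
    induction a with
    | zero =>
      rw [zero_add, pow_one, Submodule.span_le]
      rintro x ⟨i, rfl⟩
      exact Submodule.subset_span ⟨1, by simp, (e i).2⟩
    | succ a ih =>
      rw [pow_succ]
      exact m1 _ _ _ ih
  have p2 : ∀ k : ℕ, V ^ (a + 1) * V' ^ k ≤ Submodule.span QB (UU N (a + 1) (a + 1 + k)) := by
    intro k
    induction k with
    | zero => rw [pow_zero, mul_one, add_zero]; exact p1 a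
    | succ k ih =>
      rw [pow_succ V' k, ← mul_assoc]
      exact m2 _ _ _ ih
  have h1 : A ≤ Submodule.span QB
      ((⨆ n ∈ Finset.Icc (a + 1) (a + 1 + k), ZZ N n : Submodule ℚ ℂ) : Set ℂ) := by
    rw [hA]
    exact (p2 k).trans (UU_le _ _ _)
  refine le_trans ?_ (rank_scalar _ A h1)
  exact_mod_cast hd

end Pool.Agent.Run7.h317.CV
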