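import Pool.Agent.Run7.h317.CV.F
import Pool.Agent.Run7.h317.CV.G
import Pool.Agent.Run7.h317.CV.W

/-!
# Weight one: the logarithms of the prime factors of the level
-/

set_option autoImplicit false

namespace Pool.Agent.Run7.h317.CV

open Filter Topology Finset

/-- Logarithms of distinct primes are linearly independent over `ℚ`
(after `Pool.Agent.H297R2.linearIndependent_log_prime`). -/
theorem li_log_prime {ι : Type*} [Fintype ι] (P : ι → ℕ) (hP : ∀ i, (P i).Prime)
    (hinj : Function.Injective P) : LinearIndependent ℚ (fun i => Real.log (P i)) := by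
  classical
  rw [← LinearIndependent.iff_fractionRing ℤ ℚ, Fintype.linearIndependent_iff]
  intro c hc j
  have h1 : ∑ i, (c i : ℝ) * Real.log (P i) = 0 := by
    rw [← hc]
    apply Finset.sum_congr rfl
    intro i _
    rw [zsmul_eq_mul]
  have h3 : ∑ i, (((c i).toNat : ℕ) : ℝ) * Real.log (P i) = ∑ i, (((-c i).toNat : ℕ) : ℝ) * Real.log (P i) := by
    rw [← sub_eq_zero, ← Finset.sum_sub_distrib, ← h1]
    apply Finset.sum_congr rfl
    intro i _
    rw [← sub_mul]
    congr 1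
    have : ((c i).toNat : ℤ) - ((-c i).toNat : ℤ) = c i := by omega
    exact_mod_cast this
  have hpos : ∀ i, (0 : ℝ) < P i := fun i => by exact_mod_cast (hP i).pos
  have h4 : ∀ e : ι → ℕ, ∑ i, (e i : ℝ) * Real.log (P i) = Real.log ((∏ i, P i ^ e i : ℕ) : ℝ) := by
    intro e
    push_cast
    rw [Real.log_prod (fun i _ => (pow_pos (hpos i) _).ne')]
    apply Finset.sum_congr rfl
    intro i _
    rw [Real.log_pow]
  rw [h4, h4] at h3
  have hpp : ∀ e : ι → ℕ, 0 < ∏ i, P i ^ e i := fun e =>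
    Finset.prod_pos (fun i _ => pow_pos (hP i).pos _)
  have h5 : ∏ i, P i ^ (c i).toNat = ∏ i, P i ^ (-c i).toNat := by
    have := Real.log_injOn_pos (Set.mem_Ioi.2 (by exact_mod_cast hpp _)) (Set.mem_Ioi.2 (by exact_mod_cast hpp _)) h3
    exact_mod_cast this
  have h6 : ∀ e : ι → ℕ, (∏ i, P i ^ e i).factorization (P j) = e j := by
    intro e
    rw [Nat.factorization_prod (fun i _ => (pow_pos (hP i).pos _).ne')]
    rw [Finsupp.finsetSum_apply, Finset.sum_eq_single j]
    · rw [(hP j).factorization_pow]; simp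
    · intro i _ hij
      rw [(hP i).factorization_pow, Finsupp.single_apply, if_neg]
      exact fun h => hij (hinj h)
    · intro h; exact absurd (mem_univ _) h
  have h7 := congrArg (fun n => n.factorization (P j)) h5
  simp only [h6] at h7
  omega

theorem log_mem {N : ℕ} (hN : N ≠ 0) {z : ℂ} (hz : z ^ N = 1) (hz1 : z ≠ 1) :
    -Complex.log (1 - z) ∈ ZZ N 1 :=
  ZZ_one_mem le_rfl hz (fun h => hz1 (congrArg Prod.snd h))
    (lim_one z (Complex.norm_eq_one_of_pow_eq_one hz hN) hz1)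

theorem arg_ne {z : ℂ} (hz : ‖z‖ = 1) (hz1 : z ≠ 1) : (1 - z).arg ≠ Real.pi := by
  intro h
  rw [Complex.arg_eq_pi_iff] at h
  have h1 := re_lt_one hz hz1
  rw [Complex.sub_re, Complex.one_re] at h
  linarith [h.1]

theorem log_prime_mem {N p : ℕ} (hN : N ≠ 0) (hp : p.Prime) (hpN : p ∣ N) :
    ((Real.log p : ℝ) : ℂ) ∈ ZZ N 1 := by
  obtain ⟨n, rfl⟩ : ∃ n, p = n + 1 := ⟨p - 1, (Nat.sub_add_cancel hp.one_le).symm⟩
  set ζ : ℂ := Complex.exp (2 * Real.pi * Complex.I / ((n + 1 : ℕ) : ℂ)) with hζ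
  have hprim : IsPrimitiveRoot ζ (n + 1) := Complex.isPrimitiveRoot_exp (n + 1) (Nat.succ_ne_zero n)
  have hζn : ‖ζ‖ = 1 := Complex.norm_eq_one_of_pow_eq_one hprim.pow_eq_one (Nat.succ_ne_zero n)
  have hne : ∀ k, k < n → ζ ^ (k + 1) ≠ 1 := by
    intro k hk h
    have := (hprim.pow_eq_one_iff_dvd _).1 h
    have := Nat.le_of_dvd (by omega) this
    omega
  have hpow : ∀ k, (ζ ^ (k + 1)) ^ N = 1 := by
    intro k
    obtain ⟨m, rfl⟩ := hpN
    rw [← pow_mul, mul_comm (k + 1), mul_assoc, pow_mul, hprim.pow_eq_one, one_pow]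
  have hnorm : ∀ k, ‖ζ ^ (k + 1)‖ = 1 := fun k => by rw [norm_pow, hζn, one_pow]
  set x : ℕ → ℂ := fun k => -Complex.log (1 - ζ ^ (k + 1)) with hx
  have hmem : ∑ k ∈ Finset.range n, x k ∈ ZZ N 1 :=
    Submodule.sum_mem _ fun k hk => log_mem hN (hpow k) (hne k (Finset.mem_range.1 hk))
  set X := ∑ k ∈ Finset.range n, x k with hX
  have hexp : Complex.exp (-X) = ((n + 1 : ℕ) : ℂ) := by
    rw [hX, ← Finset.sum_neg_distrib, Complex.exp_sum]
    have h1 := hprim.prod_one_sub_pow_eq_order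
    rw [← Nat.cast_succ] at h1
    rw [← Nat.succ_eq_add_one, ← h1]
    refine Finset.prod_congr rfl fun k hk => ?_
    rw [hx]
    simp only [neg_neg]
    rw [Complex.exp_log]
    exact sub_ne_zero.2 (hne k (Finset.mem_range.1 hk)).symm
  have hconj : (starRingEnd ℂ) X = X := by
    rw [hX, map_sum, ← Finset.sum_range_reflect]
    refine Finset.sum_congr rfl fun k hk => ?_
    have hk' := Finset.mem_range.1 hk
    rw [hx]
    simp only [map_neg]
    congr 1
    have e1 : ζ ^ (n - 1 - k + 1) = (starRingEnd ℂ) (ζ ^ (k + 1)) := by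
      have h2 : ζ ^ (n - 1 - k + 1) * ζ ^ (k + 1) = 1 := by
        rw [← pow_add, show n - 1 - k + 1 + (k + 1) = n + 1 by omega, hprim.pow_eq_one]
      have h3 : (starRingEnd ℂ) (ζ ^ (k + 1)) * ζ ^ (k + 1) = 1 := by
        rw [mul_comm, Complex.mul_conj, Complex.normSq_eq_norm_sq, hnorm]
        norm_num
      have h4 : ζ ^ (k + 1) ≠ 0 := by
        intro h
        rw [h, mul_zero] at h2
        exact zero_ne_one h2
      exact mul_right_cancel₀ h4 (h2.trans h3.symm)
    rw [e1, ← Complex.log_conj]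
    · rw [map_sub, map_one, Complex.conj_conj]
    · have h5 : 1 - (starRingEnd ℂ) (ζ ^ (k + 1)) = 1 - ζ ^ (n - 1 - k + 1) := by rw [e1]
      rw [h5]
      exact arg_ne (hnorm _) (hne _ (by omega))
  have hre : X = ((X.re : ℝ) : ℂ) := (Complex.conj_eq_iff_real.1 hconj).elim fun r hr => by
    rw [hr, Complex.ofReal_re]
  have hlog : Real.log ((n + 1 : ℕ) : ℝ) = -X.re := by
    have h1 : Real.exp (-X.re) = ((n + 1 : ℕ) : ℝ) := by
      have h2 : Complex.exp (((-X.re : ℝ)) : ℂ) = ((n + 1 : ℕ) : ℂ) := by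
        rw [← hexp]
        congr 1
        rw [Complex.ofReal_neg, ← hre]
      rw [← Complex.ofReal_exp] at h2
      exact_mod_cast h2
    rw [← h1, Real.log_exp]
  rw [hlog, Complex.ofReal_neg, ← hre]
  exact Submodule.neg_mem _ hmem

theorem ipi_memN {N : ℕ} (hN : 3 ≤ N) : (Real.pi : ℂ) * Complex.I ∈ ZZ N 1 := by
  have hN0 : N ≠ 0 := by omega
  have hNC : (N : ℂ) ≠ 0 := by exact_mod_cast hN0
  set z : ℂ := Complex.exp (2 * Real.pi * Complex.I / (N : ℂ)) with hz
  have hprim : IsPrimitiveRoot z N := Complex.isPrimitiveRoot_exp N hN0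
  have hz0 : z ≠ 0 := Complex.exp_ne_zero _
  have hz1 : z ≠ 1 := hprim.ne_one (by omega)
  have hzi1 : z⁻¹ ≠ 1 := fun h => hz1 (by rw [← inv_inv z, h, inv_one])
  have hzN : z ^ N = 1 := hprim.pow_eq_one
  have hziN : z⁻¹ ^ N = 1 := by rw [inv_pow, hzN, inv_one]
  have m1 := log_mem hN0 hzN hz1
  have m2 := log_mem hN0 hziN hzi1
  have m3 := Submodule.sub_mem _ m1 m2
  set y := -Complex.log (1 - z) - -Complex.log (1 - z⁻¹) with hy
  have s1 : 1 - z ≠ 0 := sub_ne_zero.2 hz1.symm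
  have s2 : 1 - z⁻¹ ≠ 0 := sub_ne_zero.2 hzi1.symm
  have hexp : Complex.exp y = Complex.exp (Real.pi * Complex.I + -(2 * Real.pi * Complex.I / (N : ℂ))) := by
    rw [hy, Complex.exp_sub, Complex.exp_neg, Complex.exp_neg, Complex.exp_log s1,
      Complex.exp_log s2, Complex.exp_add, Complex.exp_pi_mul_I, Complex.exp_neg, ← hz]
    field_simp
    ring
  rw [Complex.exp_eq_exp_iff_exists_int] at hexp
  obtain ⟨k, hk⟩ := hexp
  set q : ℚ := 1 - 2 / (N : ℚ) + 2 * k with hq
  have hyq : y = (q : ℂ) * (Real.pi * Complex.I) := by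
    rw [hk, hq]
    push_cast
    field_simp
    ring
  have hq0 : q ≠ 0 := by
    intro h
    rw [hq] at h
    have hNQ : (N : ℚ) ≠ 0 := by exact_mod_cast hN0
    have h1 : (N : ℚ) * (1 + 2 * k) = 2 := by
      field_simp at h
      linarith
    have h2 : (N : ℤ) * (1 + 2 * k) = 2 := by exact_mod_cast h1
    have h3 : (N : ℤ) ∣ 2 := ⟨_, h2.symm⟩
    have h4 := Int.le_of_dvd (by norm_num) h3
    omega
  have m4 := Submodule.smul_mem _ q⁻¹ m3
  rw [hyq, Rat.smul_def, ← mul_assoc] at m4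
  have e : ((q⁻¹ : ℚ) : ℂ) * (q : ℂ) = 1 := by
    rw [← Rat.cast_mul, inv_mul_cancel₀ hq0, Rat.cast_one]
  rwa [e, one_mul] at m4

/-- **Weight one.** -/
theorem rank_ZZ1 {N : ℕ} (hN : 3 ≤ N) :
    ((N.primeFactors.card + 1 : ℕ) : Cardinal) ≤ Module.rank ℚ (ZZ N 1) := by
  refine le_trans ?_ (two_parts (ZZ N 1))
  rw [Nat.cast_add]
  refine add_le_add ?_ ?_
  · let v : N.primeFactors → (ZZ N 1).comap eR := fun p => ⟨Real.log (p : ℕ), by
      have hp := Nat.mem_primeFactors.1 p.2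
      rw [Submodule.mem_comap, eR_apply]
      exact log_prime_mem hp.2.2 hp.1 hp.2.1⟩
    have hv : LinearIndependent ℚ v := by
      apply LinearIndependent.of_comp ((ZZ N 1).comap eR).subtype
      exact li_log_prime (fun p : N.primeFactors => (p : ℕ))
        (fun p => (Nat.mem_primeFactors.1 p.2).1) Subtype.val_injective
    have := hv.cardinal_le_rank
    rwa [Cardinal.mk_coe_finset] at this
  · have h1 : (1 : ℝ) ∈ (ZZ N 1).comap eI := by
      rw [Submodule.mem_comap, eI_apply, Complex.ofReal_one, mul_one]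
      exact ipi_memN hN
    have hli : LinearIndependent ℚ (fun _ : Fin 1 => (⟨1, h1⟩ : (ZZ N 1).comap eI)) := by
      rw [Fintype.linearIndependent_iff]
      intro g hg i
      rw [Fin.sum_univ_one] at hg
      have h1 := congrArg Subtype.val hg
      rw [Submodule.coe_smul, Submodule.coe_zero] at h1
      have h2 : i = 0 := Subsingleton.elim _ _
      rw [h2]
      exact (smul_eq_zero.1 h1).resolve_right one_ne_zero
    have := hli.cardinal_le_rank
    simpa using this

end Pool.Agent.Run7.h317.CV
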